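import Pool.Agent.V7H41.Crossing

/-!
# The number of indices of a crown is bounded
-/

set_option autoImplicit false

namespace Pool.Agent.V7H41.Crown

/-- At most two supporting planes through a line touch the body off the line. -/
lemma two_planes {f1 f2 f3 d z1 z2 z3 : E} (hd : d ≠ 0) (e1 : dot f1 d = 0) (e2 : dot f2 d = 0)
    (e3 : dot f3 d = 0) (h11 : dot f1 z1 = 0) (h22 : dot f2 z2 = 0) (h33 : dot f3 z3 = 0)
    (h12 : dot f1 z2 < 0) (h13 : dot f1 z3 < 0) (h21 : dot f2 z1 < 0) (h23 : dot f2 z3 < 0)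
    (h31 : dot f3 z1 < 0) (h32 : dot f3 z2 < 0) : False := by
  have k0 : det3 f1 f2 f3 * d 0 = dot f1 d * (f2 1 * f3 2 - f2 2 * f3 1) -
      dot f2 d * (f1 1 * f3 2 - f1 2 * f3 1) + dot f3 d * (f1 1 * f2 2 - f1 2 * f2 1) := by
    unfold det3 dot; ring
  have k1 : det3 f1 f2 f3 * d 1 = dot f1 d * (f2 2 * f3 0 - f2 0 * f3 2) -
      dot f2 d * (f1 2 * f3 0 - f1 0 * f3 2) + dot f3 d * (f1 2 * f2 0 - f1 0 * f2 2) := by
    unfold det3 dot; ring
  have k2 : det3 f1 f2 f3 * d 2 = dot f1 d * (f2 0 * f3 1 - f2 1 * f3 0) -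
      dot f2 d * (f1 0 * f3 1 - f1 1 * f3 0) + dot f3 d * (f1 0 * f2 1 - f1 1 * f2 0) := by
    unfold det3 dot; ring
  rw [e1, e2, e3] at k0 k1 k2
  have hF : det3 f1 f2 f3 = 0 := by
    rcases (ne_zero_iff d).1 hd with h | h | h
    · have : det3 f1 f2 f3 * d 0 = 0 := by rw [k0]; ring
      exact (mul_eq_zero.1 this).resolve_right h
    · have : det3 f1 f2 f3 * d 1 = 0 := by rw [k1]; ring
      exact (mul_eq_zero.1 this).resolve_right h
    · have : det3 f1 f2 f3 * d 2 = 0 := by rw [k2]; ring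
      exact (mul_eq_zero.1 this).resolve_right h
  have key : det3 f1 f2 f3 * det3 z1 z2 z3 =
      dot f1 z1 * (dot f2 z2 * dot f3 z3 - dot f2 z3 * dot f3 z2) -
      dot f1 z2 * (dot f2 z1 * dot f3 z3 - dot f2 z3 * dot f3 z1) +
      dot f1 z3 * (dot f2 z1 * dot f3 z2 - dot f2 z2 * dot f3 z1) := by
    unfold det3 dot; ring
  rw [hF, h11, h22, h33] at key
  have a1 : dot f1 z2 * (dot f2 z3 * dot f3 z1) < 0 :=
    mul_neg_of_neg_of_pos h12 (mul_pos_of_neg_of_neg h23 h31)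
  have a2 : dot f1 z3 * (dot f2 z1 * dot f3 z2) < 0 :=
    mul_neg_of_neg_of_pos h13 (mul_pos_of_neg_of_neg h21 h32)
  linarith

section crown

variable {ι : Type*} {K : Set E} {x a : ι → E}

/-- the number of sign patterns -/
def cst : ℕ := Fintype.card (Fin 4 → Fin 4 → SignType)

lemma pigeon {α β : Type*} [Fintype β] (J : Finset α) (hJ : Fintype.card β < J.card)
    (f : α → β) : ∃ j ∈ J, ∃ l ∈ J, j ≠ l ∧ f j = f l :=
  Finset.exists_ne_map_eq_of_card_lt_of_maps_to
    (t := (Finset.univ : Finset β)) hJ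
    (fun _ _ => Finset.mem_coe.2 (Finset.mem_univ _))

/-- The crossing lemma for four points `x` and many points `a`. -/
lemma IsCrown.exists_common (h : IsCrown K x a) (hint : (interior K).Nonempty) (p : Fin 4 → ι)
    (hp : Function.Injective p) (J : Finset ι) (hJ : cst < J.card) (hd : ∀ i, p i ∉ J) :
    ∃ i k : Fin 4, i ≠ k ∧ ∃ j ∈ J, ∃ l ∈ J, j ≠ l ∧ Common K x a (p i) (p k) j l := by
  classical
  -- the points in question
  set P : Finset E := (Finset.univ.image fun i => x (p i)) ∪ J.image a with hP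
  set s : Finset (E × E × E) := (P ×ˢ P ×ˢ P).filter
    fun t => cr (t.2.1 - t.1) (t.2.2 - t.1) ≠ 0 with hs
  obtain ⟨o, ho, hgen⟩ := generic s (fun t => cr (t.2.1 - t.1) (t.2.2 - t.1))
    (fun t => dot (cr (t.2.1 - t.1) (t.2.2 - t.1)) t.1) (fun t ht => (Finset.mem_filter.1 ht).2)
    (interior K) isOpen_interior hint
  have gen : ∀ q ∈ P, ∀ r ∈ P, ∀ t ∈ P, cr (r - q) (t - q) ≠ 0 →
      det3 (q - o) (r - o) (t - o) ≠ 0 := by
    intro q hq r hr t ht hc
    have := hgen (q, r, t) (by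
      rw [hs, Finset.mem_filter]
      exact ⟨Finset.mem_product.2 ⟨hq, Finset.mem_product.2 ⟨hr, ht⟩⟩, hc⟩)
    rw [det3_eq]
    intro h0
    apply this
    simp only
    linarith
  obtain ⟨j, hj, l, hl, hjl, hσ⟩ := pigeon J hJ
    (fun j i k => SignType.sign (det3 (x (p i) - o) (x (p k) - o) (a j - o)))
  obtain ⟨i, k, hik, hτ⟩ := Fintype.exists_ne_map_eq_of_card_lt
    (fun i : Fin 4 => SignType.sign (det3 (x (p i) - o) (a j - o) (a l - o))) (by decide)
  refine ⟨i, k, hik, j, hj, l, hl, hjl, ?_⟩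
  have hin : ∀ q ∈ ({x (p i), x (p k), a j, a l} : Set E), q ∈ P := by
    intro q hq
    rw [hP, Finset.mem_union, Finset.mem_image, Finset.mem_image]
    rcases hq with rfl | rfl | rfl | rfl
    · exact Or.inl ⟨i, Finset.mem_univ _, rfl⟩
    · exact Or.inl ⟨k, Finset.mem_univ _, rfl⟩
    · exact Or.inr ⟨j, hj, rfl⟩
    · exact Or.inr ⟨l, hl, rfl⟩
  have hne : ∀ (i : Fin 4) (j : ι), j ∈ J → p i ≠ j := by
    rintro i j hj rfl
    exact hd i hj
  exact h.common (fun e => hik (hp e)) hjl (hne i j hj) (hne i l hl) (hne k j hj) (hne k l hl) ho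
    (fun q hq r hr t ht => gen q (hin q hq) r (hin r hr) t (hin t ht)) hτ.symm
    (congrFun (congrFun hσ i) k).symm

/-- A supporting plane containing some `x i` and at least `m` points `a j`, indices from `S`. -/
def HasFace (K : Set E) (x a : ι → E) (S : Finset ι) (m : ℕ) : Prop :=
  ∃ f : E, f ≠ 0 ∧ ∃ i ∈ S, (∀ y ∈ K, dot f y ≤ dot f (x i)) ∧
    ∃ T ⊆ S, m ≤ T.card ∧ ∀ j ∈ T, dot f (a j) = dot f (x i)

/-- the number of indices needed for a plane with `m` points -/
def need (m : ℕ) : ℕ := 4 + (cst + 16 * (2 * m + 1)) + 1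

lemma IsCrown.hasFace (h : IsCrown K x a) (hint : (interior K).Nonempty) (m : ℕ) (S : Finset ι)
    (hS : need m ≤ S.card) : HasFace K x a S m := by
  classical
  obtain ⟨P, hPS, hP⟩ := Finset.exists_subset_card_eq (s := S) (n := 4) (by unfold need at hS; omega)
  set p : Fin 4 → ι := fun i => ((P.equivFinOfCardEq hP).symm i : ι) with hp
  have pinj : Function.Injective p := fun i k e =>
    (P.equivFinOfCardEq hP).symm.injective (Subtype.ext e)
  have pP : ∀ i, p i ∈ P := fun i => ((P.equivFinOfCardEq hP).symm i).2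
  set J : Finset ι := S \ P with hJ
  have cJ : J.card = S.card - 4 := by rw [hJ, Finset.card_sdiff_of_subset hPS, hP]
  let Q : Fin 4 × Fin 4 → Finset ι := fun q => J.filter fun j => ∃ f : E, f ≠ 0 ∧
    (∀ y ∈ K, dot f y ≤ dot f (x (p q.1))) ∧ dot f (x (p q.2)) = dot f (x (p q.1)) ∧
    dot f (a j) = dot f (x (p q.1))
  let I : Finset (Fin 4 × Fin 4) := Finset.univ.filter fun q => q.1 ≠ q.2
  have hU : (J \ I.biUnion Q).card ≤ cst := by
    by_contra hcon
    push Not at hcon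
    obtain ⟨i, k, hik, j, hj, l, hl, hjl, f, hf, hm, e1, e2, e3⟩ :=
      h.exists_common hint p pinj (J \ I.biUnion Q) hcon
        (fun i hi => (Finset.mem_sdiff.1 (Finset.mem_sdiff.1 hi).1).2 (pP i))
    apply (Finset.mem_sdiff.1 hj).2
    rw [Finset.mem_biUnion]
    exact ⟨(i, k), Finset.mem_filter.2 ⟨Finset.mem_univ _, hik⟩,
      Finset.mem_filter.2 ⟨(Finset.mem_sdiff.1 hj).1, f, hf, hm, e1, e2⟩⟩
  have hbig : ∃ q ∈ I, 2 * m + 1 < (Q q).card := by
    by_contra hcon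
    push Not at hcon
    have h1 : (I.biUnion Q).card ≤ I.card * (2 * m + 1) := Finset.card_biUnion_le_card_mul _ _ _ hcon
    have h2 : I.card ≤ 16 := by
      refine (Finset.card_filter_le _ _).trans ?_
      simp
    have h3 : J.card ≤ (J \ I.biUnion Q).card + (I.biUnion Q).card :=
      Finset.card_le_card_sdiff_add_card
    have h4 : I.card * (2 * m + 1) ≤ 16 * (2 * m + 1) := Nat.mul_le_mul_right _ h2
    unfold need at hS
    omega
  obtain ⟨⟨i, k⟩, hq, hcard⟩ := hbig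
  have hik : i ≠ k := (Finset.mem_filter.1 hq).2
  have hxne : x (p k) - x (p i) ≠ 0 := sub_ne_zero.2 (h.x_ne fun e => hik (pinj e)).symm
  have hQ : ∀ j ∈ Q (i, k), ∃ f : E, f ≠ 0 ∧ (∀ y ∈ K, dot f y ≤ dot f (x (p i))) ∧
      dot f (x (p k)) = dot f (x (p i)) ∧ dot f (a j) = dot f (x (p i)) :=
    fun j hj => (Finset.mem_filter.1 hj).2
  have hQS : Q (i, k) ⊆ S := fun j hj =>
    (Finset.mem_sdiff.1 (Finset.mem_filter.1 hj).1).1
  by_cases hL : ∃ j1 ∈ Q (i, k), cr (x (p k) - x (p i)) (a j1 - x (p i)) ≠ 0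
  · obtain ⟨j1, hj1, hc1⟩ := hL
    obtain ⟨f1, f10, f1m, f1k, f1j⟩ := hQ j1 hj1
    by_cases hT1 : m ≤ ((Q (i, k)).filter fun j => dot f1 (a j) = dot f1 (x (p i))).card
    · exact ⟨f1, f10, p i, hPS (pP i), f1m, _, (Finset.filter_subset _ _).trans hQS, hT1,
        fun j hj => (Finset.mem_filter.1 hj).2⟩
    · push Not at hT1
      have hsum := Finset.card_filter_add_card_filter_not (s := Q (i, k))
        (fun j => dot f1 (a j) = dot f1 (x (p i)))
      have hT2 : m < ((Q (i, k)).filter fun j => ¬ dot f1 (a j) = dot f1 (x (p i))).card := by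
        omega
      obtain ⟨j2, hj2⟩ := Finset.card_pos.1 (lt_of_le_of_lt (Nat.zero_le _) hT2)
      obtain ⟨hj2Q, hj2n⟩ := Finset.mem_filter.1 hj2
      obtain ⟨f2, f20, f2m, f2k, f2j⟩ := hQ j2 hj2Q
      refine ⟨f2, f20, p i, hPS (pP i), f2m, _, (Finset.filter_subset _ _).trans hQS, hT2.le, ?_⟩
      intro j hj
      obtain ⟨hjQ, hjn⟩ := Finset.mem_filter.1 hj
      obtain ⟨f3, f30, f3m, f3k, f3j⟩ := hQ j hjQ
      by_contra hcon
      -- abbreviations
      have v1 : dot f1 (x (p k) - x (p i)) = 0 := by rw [dot_sub, f1k, sub_self]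
      have v2 : dot f2 (x (p k) - x (p i)) = 0 := by rw [dot_sub, f2k, sub_self]
      have v3 : dot f3 (x (p k) - x (p i)) = 0 := by rw [dot_sub, f3k, sub_self]
      have w11 : dot f1 (a j1 - x (p i)) = 0 := by rw [dot_sub, f1j, sub_self]
      have w22 : dot f2 (a j2 - x (p i)) = 0 := by rw [dot_sub, f2j, sub_self]
      have w33 : dot f3 (a j - x (p i)) = 0 := by rw [dot_sub, f3j, sub_self]
      have lt_of : ∀ (f : E), (∀ y ∈ K, dot f y ≤ dot f (x (p i))) → ∀ t : ι,
          ¬ dot f (a t - x (p i)) = 0 → dot f (a t - x (p i)) < 0 := by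
        intro f hf t ht
        have := hf _ (h.ha t)
        rw [dot_sub] at ht ⊢
        exact lt_of_le_of_ne (by linarith) ht
      have w12 : ¬ dot f1 (a j2 - x (p i)) = 0 := by
        rw [dot_sub, sub_eq_zero]; exact hj2n
      have w13 : ¬ dot f1 (a j - x (p i)) = 0 := by
        rw [dot_sub, sub_eq_zero]; exact hjn
      have w23 : ¬ dot f2 (a j - x (p i)) = 0 := by
        rw [dot_sub, sub_eq_zero]; exact hcon
      have w21 : ¬ dot f2 (a j1 - x (p i)) = 0 := by
        intro e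
        exact w12 (plane_eq f20 hc1 v2 e v1 w11 w22)
      have w31 : ¬ dot f3 (a j1 - x (p i)) = 0 := by
        intro e
        exact w13 (plane_eq f30 hc1 v3 e v1 w11 w33)
      have hc2 : cr (x (p k) - x (p i)) (a j2 - x (p i)) ≠ 0 := by
        intro hc
        obtain ⟨t, ht⟩ := exists_of_cr_zero hc hxne
        apply w12
        rw [ht, dot_smul, v1, mul_zero]
      have w32 : ¬ dot f3 (a j2 - x (p i)) = 0 := by
        intro e
        exact w23 (plane_eq f30 hc2 v3 e v2 w22 w33)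
      exact two_planes hxne v1 v2 v3 w11 w22 w33 (lt_of f1 f1m _ w12) (lt_of f1 f1m _ w13)
        (lt_of f2 f2m _ w21) (lt_of f2 f2m _ w23) (lt_of f3 f3m _ w31) (lt_of f3 f3m _ w32)
  · push Not at hL
    obtain ⟨j1, hj1⟩ := Finset.card_pos.1 (lt_of_le_of_lt (Nat.zero_le _) hcard)
    obtain ⟨f1, f10, f1m, f1k, -⟩ := hQ j1 hj1
    refine ⟨f1, f10, p i, hPS (pP i), f1m, Q (i, k), hQS, by omega, ?_⟩
    intro j hj
    obtain ⟨t, ht⟩ := exists_of_cr_zero (hL j hj) hxne
    have := congrArg (dot f1) ht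
    rw [dot_sub, dot_smul, dot_sub, f1k, sub_self, mul_zero] at this
    linarith

/-- The number of indices of a crown is bounded by an absolute constant. -/
theorem IsCrown.card_lt (h : IsCrown K x a) (hint : (interior K).Nonempty) (S : Finset ι) :
    S.card < need (need 3) := by
  classical
  by_contra hcon
  push Not at hcon
  obtain ⟨f1, f10, i0, -, f1m, T, -, hT, f1a⟩ := h.hasFace hint (need 3) S hcon
  obtain ⟨f2, f20, i1, hi1, f2m, T', hT'T, hT', f2a⟩ := h.hasFace hint 3 T hT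
  obtain ⟨T3, hT3, hc3⟩ := Finset.exists_subset_card_eq hT'
  obtain ⟨j1, j2, j3, h12, h13, h23, rfl⟩ := Finset.card_eq_three.1 hc3
  have m1 : j1 ∈ T' := hT3 (by simp)
  have m2 : j2 ∈ T' := hT3 (by simp)
  have m3 : j3 ∈ T' := hT3 (by simp)
  have nc := h.noncollinear h12 h13 h23
  have g1 := f1a j1 (hT'T m1)
  have g2 := f1a j2 (hT'T m2)
  have g3 := f1a j3 (hT'T m3)
  have k1 := f2a j1 m1
  have k2 := f2a j2 m2
  have k3 := f2a j3 m3
  have e : dot f1 (x i1 - a j1) = 0 := by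
    apply plane_eq (f := f2) (g := f1) f20 nc
    · rw [dot_sub, k1, k2, sub_self]
    · rw [dot_sub, k1, k3, sub_self]
    · rw [dot_sub, g1, g2, sub_self]
    · rw [dot_sub, g1, g3, sub_self]
    · rw [dot_sub, k1, sub_self]
  rw [dot_sub, sub_eq_zero, g1] at e
  apply h.eq i1 f1 f10 (by rwa [e])
  rw [f1a i1 hi1, e]

end crown

end Pool.Agent.V7H41.Crown
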