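import Pool.Agent.V7H41.Crown

/-!
# Areas of planar pieces in three-space
-/

set_option autoImplicit false

open MeasureTheory Measure Set Module
open scoped RealInnerProductSpace

namespace Pool.Agent.V7H41.Area

open Pool.Agent.V7H41.Crown (cr dot ext3 exists_of_cr_zero)

/-- three-space and the plane -/
abbrev E3 := EuclideanSpace ℝ (Fin 3)
abbrev E2 := EuclideanSpace ℝ (Fin 2)

/-- the affine map `a ↦ x₀ + a₀ p + a₁ q` -/
def pm (x0 p q : E3) (a : E2) : E3 := x0 + (a 0 • p + a 1 • q)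

lemma norm_sq3 (x : E3) : ‖x‖ ^ 2 = x 0 ^ 2 + x 1 ^ 2 + x 2 ^ 2 := by
  rw [EuclideanSpace.norm_sq_eq, Fin.sum_univ_three]
  simp [sq_abs]

lemma norm_sq2 (x : E2) : ‖x‖ ^ 2 = x 0 ^ 2 + x 1 ^ 2 := by
  rw [EuclideanSpace.norm_sq_eq, Fin.sum_univ_two]
  simp [sq_abs]

lemma inner3 (x y : E3) : ⟪x, y⟫ = x 0 * y 0 + x 1 * y 1 + x 2 * y 2 := by
  simp only [PiLp.inner_apply, Fin.sum_univ_three, RCLike.inner_apply, conj_trivial]
  ring

lemma inner2 (x y : E2) : ⟪x, y⟫ = x 0 * y 0 + x 1 * y 1 := by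
  simp only [PiLp.inner_apply, Fin.sum_univ_two, RCLike.inner_apply, conj_trivial]
  ring

lemma norm_cr_sq (p q : E3) : ‖cr p q‖ ^ 2 = ‖p‖ ^ 2 * ‖q‖ ^ 2 - ⟪p, q⟫ ^ 2 := by
  rw [norm_sq3, norm_sq3, norm_sq3, inner3]
  simp only [Crown.cr_0, Crown.cr_1, Crown.cr_2]
  ring

/-- A line has area zero. -/
lemma line_null (x0 v : E3) (S : Set E3) (hS : ∀ x ∈ S, ∃ t : ℝ, x = x0 + t • v) :
    μHE[2] S = 0 := by
  have h1 : μH[(2 : ℕ)] (Set.univ : Set ℝ) = 0 := by
    exact hausdorffMeasure_of_dimH_lt (d := 2) (by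
      rw [Real.dimH_univ]
      norm_num)
  have hL : LipschitzWith ‖v‖₊ (fun t : ℝ => x0 + t • v) := by
    refine LipschitzWith.of_dist_le_mul fun s t => ?_
    rw [dist_eq_norm, dist_eq_norm]
    have : x0 + s • v - (x0 + t • v) = (s - t) • v := by module
    rw [this, norm_smul, coe_nnnorm, mul_comm]
  have h2 : μH[(2 : ℕ)] S = 0 := by
    have hsub : S ⊆ (fun t : ℝ => x0 + t • v) '' Set.univ := by
      intro x hx
      obtain ⟨t, ht⟩ := hS x hx
      exact ⟨t, Set.mem_univ _, ht.symm⟩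
    have h3 := hL.hausdorffMeasure_image_le (d := ((2 : ℕ) : ℝ)) (by positivity) Set.univ
    rw [h1, mul_zero] at h3
    exact measure_mono_null hsub (le_antisymm h3 bot_le)
  rw [euclideanHausdorffMeasure_def, Measure.smul_apply, h2, smul_zero]

/-- **Area formula** for an affine parametrisation of a plane. -/
lemma area (x0 p q : E3) (S : Set E2) :
    μHE[2] (pm x0 p q '' S) = ENNReal.ofReal ‖cr p q‖ * volume S := by
  by_cases hc : cr p q = 0
  · rw [hc, norm_zero, ENNReal.ofReal_zero, zero_mul]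
    by_cases hp : p = 0
    · apply line_null x0 q
      rintro _ ⟨a, -, rfl⟩
      exact ⟨a 1, by rw [pm, hp, smul_zero, zero_add]⟩
    · obtain ⟨t, ht⟩ := exists_of_cr_zero hc hp
      apply line_null x0 p
      rintro _ ⟨a, -, rfl⟩
      exact ⟨a 0 + a 1 * t, by rw [pm, ht]; module⟩
  · -- the plane spanned by `p`, `q`
    have hli : LinearIndependent ℝ ![p, q] := by
      rw [LinearIndependent.pair_iff]
      intro s t hst
      by_contra hcon
      apply hc
      rw [not_and_or] at hcon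
      rcases hcon with hs | ht
      · have : p = (-(t / s)) • q := by
          have h1 : s • p = -(t • q) := eq_neg_of_add_eq_zero_left hst
          calc p = s⁻¹ • (s • p) := by rw [smul_smul, inv_mul_cancel₀ hs, one_smul]
            _ = (-(t / s)) • q := by rw [h1, smul_neg, smul_smul, neg_smul]; congr 2; field_simp
        rw [this]
        apply ext3 <;> simp <;> ring
      · have : q = (-(s / t)) • p := by
          have h1 : t • q = -(s • p) := eq_neg_of_add_eq_zero_right hst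
          calc q = t⁻¹ • (t • q) := by rw [smul_smul, inv_mul_cancel₀ ht, one_smul]
            _ = (-(s / t)) • p := by rw [h1, smul_neg, smul_smul, neg_smul]; congr 2; field_simp
        rw [this]
        apply ext3 <;> simp <;> ring
    set V := Submodule.span ℝ (Set.range ![p, q]) with hV
    have hfin : finrank ℝ V = 2 := by
      rw [hV, finrank_span_eq_card hli]
      simp
    let b : OrthonormalBasis (Fin 2) ℝ V := (stdOrthonormalBasis ℝ V).reindex (finCongr hfin)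
    have hpV : p ∈ V := Submodule.subset_span ⟨0, rfl⟩
    have hqV : q ∈ V := Submodule.subset_span ⟨1, rfl⟩
    set P : E2 := b.repr ⟨p, hpV⟩ with hP
    set Q : E2 := b.repr ⟨q, hqV⟩ with hQ
    let ι : E2 →ₗᵢ[ℝ] E3 := V.subtypeₗᵢ.comp b.repr.symm.toLinearIsometry
    have hιP : ι P = p := by
      show ((b.repr.symm (b.repr ⟨p, hpV⟩) : V) : E3) = p
      rw [LinearIsometryEquiv.symm_apply_apply]
    have hιQ : ι Q = q := by
      show ((b.repr.symm (b.repr ⟨q, hqV⟩) : V) : E3) = q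
      rw [LinearIsometryEquiv.symm_apply_apply]
    let M : Matrix (Fin 2) (Fin 2) ℝ := !![P 0, Q 0; P 1, Q 1]
    let N : E2 →ₗ[ℝ] E2 := Matrix.toLin (EuclideanSpace.basisFun (Fin 2) ℝ).toBasis
      (EuclideanSpace.basisFun (Fin 2) ℝ).toBasis M
    have hN : ∀ a : E2, N a = a 0 • P + a 1 • Q := by
      intro a
      have hr : ∀ j, (EuclideanSpace.basisFun (Fin 2) ℝ).toBasis.repr a j = a j := fun j => by simp
      ext i
      fin_cases i
      · simp only [N, Matrix.toLin_apply]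
        simp [M, Matrix.vecHead, Matrix.vecTail]
        ring
      · simp only [N, Matrix.toLin_apply]
        simp [M, Matrix.vecHead, Matrix.vecTail]
        ring
    have hdet : LinearMap.det N = P 0 * Q 1 - Q 0 * P 1 := by
      rw [LinearMap.det_toLin, Matrix.det_fin_two_of]
    have himg : pm x0 p q '' S = (fun y => x0 + ι y) '' (N '' S) := by
      rw [Set.image_image]
      apply Set.image_congr
      intro a _
      show x0 + (a 0 • p + a 1 • q) = x0 + ι (N a)
      rw [hN, map_add, map_smul, map_smul, hιP, hιQ]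
    have hiso : Isometry (fun y => x0 + ι y) := by
      intro y z
      simp only [edist_add_left]
      exact ι.isometry.edist_eq y z
    rw [himg, hiso.euclideanHausdorffMeasure_image, EuclideanSpace.euclideanHausdorffMeasure_eq_volume,
      Measure.addHaar_image_linearMap]
    congr 2
    have hsq : |LinearMap.det N| ^ 2 = ‖cr p q‖ ^ 2 := by
      have e1 : ‖p‖ = ‖P‖ := by rw [← hιP, ι.norm_map]
      have e2 : ‖q‖ = ‖Q‖ := by rw [← hιQ, ι.norm_map]
      have e3 : ⟪p, q⟫ = ⟪P, Q⟫ := by rw [← hιP, ← hιQ, ι.inner_map_map]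
      rw [norm_cr_sq, e1, e2, e3, norm_sq2, norm_sq2, inner2, sq_abs, hdet]
      ring
    exact (pow_left_inj₀ (abs_nonneg _) (norm_nonneg _) two_ne_zero).1 hsq

/-- Hlawka's inequality. -/
lemma hlawka (x y z : E3) :
    ‖x + y‖ + ‖y + z‖ + ‖x + z‖ ≤ ‖x‖ + ‖y‖ + ‖z‖ + ‖x + y + z‖ := by
  have id1 : ‖x + y‖ ^ 2 + ‖y + z‖ ^ 2 + ‖x + z‖ ^ 2 =
      ‖x‖ ^ 2 + ‖y‖ ^ 2 + ‖z‖ ^ 2 + ‖x + y + z‖ ^ 2 := by
    simp only [norm_sq3, PiLp.add_apply]
    ring
  have a1 := norm_add_le x y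
  have a2 := norm_add_le y z
  have a3 := norm_add_le x z
  have b1 : ‖x + y‖ ≤ ‖z‖ + ‖x + y + z‖ := by
    have := norm_sub_le (x + y + z) z
    rw [add_sub_cancel_right] at this
    linarith
  have b2 : ‖y + z‖ ≤ ‖x‖ + ‖x + y + z‖ := by
    have := norm_sub_le (x + y + z) x
    have e : x + y + z - x = y + z := by abel
    rw [e] at this
    linarith
  have b3 : ‖x + z‖ ≤ ‖y‖ + ‖x + y + z‖ := by
    have := norm_sub_le (x + y + z) y
    have e : x + y + z - y = x + z := by abel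
    rw [e] at this
    linarith
  have n1 := norm_nonneg x
  have n2 := norm_nonneg y
  have n3 := norm_nonneg z
  have n4 := norm_nonneg (x + y + z)
  have c1 := mul_nonneg (sub_nonneg.2 a1) (sub_nonneg.2 b1)
  have c2 := mul_nonneg (sub_nonneg.2 a2) (sub_nonneg.2 b2)
  have c3 := mul_nonneg (sub_nonneg.2 a3) (sub_nonneg.2 b3)
  by_contra hcon
  push Not at hcon
  have hpos : 0 ≤ ‖x‖ + ‖y‖ + ‖z‖ + ‖x + y + z‖ := by positivity
  rcases hpos.eq_or_lt with h0 | h0
  · have z1 : ‖x‖ = 0 := by linarith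
    have z2 : ‖y‖ = 0 := by linarith
    have z3 : ‖z‖ = 0 := by linarith
    linarith
  · have key : (‖x‖ + ‖y‖ + ‖z‖ + ‖x + y + z‖) *
        (‖x‖ + ‖y‖ + ‖z‖ + ‖x + y + z‖ - (‖x + y‖ + ‖y + z‖ + ‖x + z‖)) =
        (‖x‖ + ‖y‖ - ‖x + y‖) * (‖z‖ + ‖x + y + z‖ - ‖x + y‖) +
        (‖y‖ + ‖z‖ - ‖y + z‖) * (‖x‖ + ‖x + y + z‖ - ‖y + z‖) +
        (‖x‖ + ‖z‖ - ‖x + z‖) * (‖y‖ + ‖x + y + z‖ - ‖x + z‖) := by
      nlinarith [id1]
    have : (‖x‖ + ‖y‖ + ‖z‖ + ‖x + y + z‖) *
        (‖x‖ + ‖y‖ + ‖z‖ + ‖x + y + z‖ - (‖x + y‖ + ‖y + z‖ + ‖x + z‖)) < 0 :=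
      mul_neg_of_pos_of_neg h0 (by linarith)
    linarith

end Pool.Agent.V7H41.Area
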