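import Pool.Agent.V7H41.Crown

/-!
# The crossing lemma for crowns
-/

set_option autoImplicit false

namespace Pool.Agent.V7H41.Crown

/-- If two positive combinations of points of the unit level agree, the four points are on a common
supporting plane. -/
lemma common_of_cross {K : Set E} {o p q r s f g : E} {α β γ δ : ℝ} (ho : o ∈ interior K)
    (hr : r ∈ K) (hs : s ∈ K) (hp : p ∈ K) (hq : q ∈ K)
    (hf : f ≠ 0) (hg : g ≠ 0) (fm : ∀ y ∈ K, dot f y ≤ dot f p) (gm : ∀ y ∈ K, dot g y ≤ dot g r)
    (fq : dot f q = dot f p) (gs : dot g s = dot g r) (hα : 0 < α) (hβ : 0 < β) (hγ : 0 < γ)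
    (hδ : 0 < δ) (e : α • (p - o) + β • (q - o) = γ • (r - o) + δ • (s - o)) :
    dot f r = dot f p ∧ dot f s = dot f p := by
  have f0 := int_lt ho hf fm
  have g0 := int_lt ho hg gm
  have e1 : α * (dot f p - dot f o) + β * (dot f q - dot f o) =
      γ * (dot f r - dot f o) + δ * (dot f s - dot f o) := by
    have := congrArg (dot f) e
    simpa only [dot_add, dot_smul, dot_sub] using this
  have e2 : α * (dot g p - dot g o) + β * (dot g q - dot g o) =
      γ * (dot g r - dot g o) + δ * (dot g s - dot g o) := by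
    have := congrArg (dot g) e
    simpa only [dot_add, dot_smul, dot_sub] using this
  rw [fq] at e1
  rw [gs] at e2
  have fr := fm r hr
  have fs := fm s hs
  have gp := gm p hp
  have gq := gm q hq
  -- `α + β ≤ γ + δ` and conversely
  have h1 : (α + β) * (dot f p - dot f o) ≤ (γ + δ) * (dot f p - dot f o) := by nlinarith
  have h2 : (γ + δ) * (dot g r - dot g o) ≤ (α + β) * (dot g r - dot g o) := by nlinarith
  have h3 : α + β ≤ γ + δ := le_of_mul_le_mul_right h1 (by linarith)
  have h4 : γ + δ ≤ α + β := le_of_mul_le_mul_right h2 (by linarith)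
  have h5 : α + β = γ + δ := le_antisymm h3 h4
  have h6 : γ * (dot f p - dot f r) + δ * (dot f p - dot f s) = 0 := by
    have : (α + β) * (dot f p - dot f o) = (γ + δ) * (dot f p - dot f o) := by rw [h5]
    nlinarith
  have h7 : 0 ≤ γ * (dot f p - dot f r) := mul_nonneg hγ.le (by linarith)
  have h8 : 0 ≤ δ * (dot f p - dot f s) := mul_nonneg hδ.le (by linarith)
  have h9 : γ * (dot f p - dot f r) = 0 := by linarith
  have h10 : δ * (dot f p - dot f s) = 0 := by linarith
  constructor
  · rcases mul_eq_zero.1 h9 with h | h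
    · linarith
    · linarith
  · rcases mul_eq_zero.1 h10 with h | h
    · linarith
    · linarith

/-- Two boundary points on a common ray from an inner point coincide. -/
lemma eq_of_ray {K : Set E} {o p r f g : E} {α γ : ℝ} (ho : o ∈ interior K)
    (hr : r ∈ K) (hp : p ∈ K) (hf : f ≠ 0) (hg : g ≠ 0) (fm : ∀ y ∈ K, dot f y ≤ dot f p)
    (gm : ∀ y ∈ K, dot g y ≤ dot g r) (hα : 0 < α) (hγ : 0 < γ)
    (e : α • (p - o) = γ • (r - o)) : p = r := by
  have f0 := int_lt ho hf fm
  have g0 := int_lt ho hg gm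
  have e1 : α * (dot f p - dot f o) = γ * (dot f r - dot f o) := by
    have := congrArg (dot f) e
    simpa only [dot_add, dot_smul, dot_sub] using this
  have e2 : α * (dot g p - dot g o) = γ * (dot g r - dot g o) := by
    have := congrArg (dot g) e
    simpa only [dot_add, dot_smul, dot_sub] using this
  have fr := fm r hr
  have gp := gm p hp
  have h1 : α * (dot f p - dot f o) ≤ γ * (dot f p - dot f o) := by nlinarith
  have h2 : γ * (dot g r - dot g o) ≤ α * (dot g r - dot g o) := by nlinarith
  have h3 : α ≤ γ := le_of_mul_le_mul_right h1 (by linarith)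
  have h4 : γ ≤ α := le_of_mul_le_mul_right h2 (by linarith)
  have h5 : α = γ := le_antisymm h3 h4
  rw [h5] at e
  have h6 : p - o = r - o := smul_right_injective E hγ.ne' e
  exact sub_left_injective h6

lemma sign_cases {a b : ℝ} (h : SignType.sign a = SignType.sign b) :
    (a < 0 ∧ b < 0) ∨ (a = 0 ∧ b = 0) ∨ (0 < a ∧ 0 < b) := by
  rcases lt_trichotomy a 0 with ha | ha | ha
  · rw [sign_neg ha] at h
    exact Or.inl ⟨ha, sign_eq_neg_one_iff.1 h.symm⟩
  · rw [ha, sign_zero] at h
    exact Or.inr (Or.inl ⟨ha, sign_eq_zero_iff.1 h.symm⟩)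
  · rw [sign_pos ha] at h
    exact Or.inr (Or.inr ⟨ha, sign_eq_one_iff.1 h.symm⟩)

section crown

variable {ι : Type*} {K : Set E} {x a : ι → E}

/-- The crossing lemma for four points: indices `i, k` (for `x`) and `j, l` (for `a`). -/
lemma IsCrown.common (h : IsCrown K x a) {i k j l : ι} (hik : i ≠ k) (hjl : j ≠ l)
    (hij : i ≠ j) (hil : i ≠ l) (hkj : k ≠ j) (hkl : k ≠ l) {o : E} (ho : o ∈ interior K)
    (gen : ∀ p ∈ ({x i, x k, a j, a l} : Set E), ∀ q ∈ ({x i, x k, a j, a l} : Set E),
      ∀ r ∈ ({x i, x k, a j, a l} : Set E), cr (q - p) (r - p) ≠ 0 →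
        det3 (p - o) (q - o) (r - o) ≠ 0)
    (h1 : SignType.sign (det3 (x k - o) (a j - o) (a l - o)) =
      SignType.sign (det3 (x i - o) (a j - o) (a l - o)))
    (h2 : SignType.sign (det3 (x i - o) (x k - o) (a l - o)) =
      SignType.sign (det3 (x i - o) (x k - o) (a j - o))) : Common K x a i k j l := by
  set D1 := det3 (x k - o) (a j - o) (a l - o) with hD1
  set D2 := det3 (x i - o) (a j - o) (a l - o) with hD2
  set D3 := det3 (x i - o) (x k - o) (a l - o) with hD3
  set D4 := det3 (x i - o) (x k - o) (a j - o) with hD4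
  have rel : D1 • (x i - o) - D2 • (x k - o) + D3 • (a j - o) - D4 • (a l - o) = 0 :=
    relation _ _ _ _
  obtain ⟨f1, f10, f1m, f1v⟩ := h.ne i j hij
  obtain ⟨f2, f20, f2m, f2v⟩ := h.ne i l hil
  obtain ⟨f3, f30, f3m, f3v⟩ := h.ne k j hkj
  obtain ⟨f4, f40, f4m, f4v⟩ := h.ne k l hkl
  have xi := h.hx i
  have xk := h.hx k
  have aj := h.ha j
  have al := h.ha l
  -- the case of four collinear points
  have coll : D1 = 0 → D2 = 0 → D3 = 0 → D4 = 0 → Common K x a i k j l := by
    intro z1 z2 z3 z4
    have c2 : cr (a l - a j) (x i - a j) = 0 := by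
      by_contra hc
      have := gen (a j) (by simp) (a l) (by simp) (x i) (by simp) hc
      apply this
      have : det3 (a j - o) (a l - o) (x i - o) = D2 := by
        rw [hD2]; unfold det3; ring
      rw [this, z2]
    have c1 : cr (a l - a j) (x k - a j) = 0 := by
      by_contra hc
      have := gen (a j) (by simp) (a l) (by simp) (x k) (by simp) hc
      apply this
      have : det3 (a j - o) (a l - o) (x k - o) = D1 := by
        rw [hD1]; unfold det3; ring
      rw [this, z1]
    have hne : a l - a j ≠ 0 := sub_ne_zero.2 (h.a_ne hjl).symm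
    obtain ⟨t, ht⟩ := exists_of_cr_zero c2 hne
    obtain ⟨s, hs⟩ := exists_of_cr_zero c1 hne
    by_cases ht0 : t = 0
    · -- `x i = a j`
      have hxa : x i = a j := by
        rw [ht0, zero_smul] at ht
        exact sub_eq_zero.1 ht
      refine ⟨f2, f20, f2m, ?_, by rw [hxa], f2v⟩
      have e1 : dot f2 (x k) = dot f2 (a j) + s * (dot f2 (a l) - dot f2 (a j)) := by
        have := congrArg (dot f2) hs
        simp only [dot_sub, dot_smul] at this
        linarith
      rw [e1, f2v, hxa]
      ring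
    · have e0 : dot f1 (x i) = dot f1 (a j) + t * (dot f1 (a l) - dot f1 (a j)) := by
        have := congrArg (dot f1) ht
        simp only [dot_sub, dot_smul] at this
        linarith
      have e2 : dot f1 (a l) = dot f1 (a j) := by
        rw [f1v] at e0
        have : t * (dot f1 (a l) - dot f1 (x i)) = 0 := by linarith
        rcases mul_eq_zero.1 this with h' | h'
        · exact absurd h' ht0
        · rw [f1v]; linarith
      refine ⟨f1, f10, f1m, ?_, f1v, by rw [e2, f1v]⟩
      have e1 : dot f1 (x k) = dot f1 (a j) + s * (dot f1 (a l) - dot f1 (a j)) := by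
        have := congrArg (dot f1) hs
        simp only [dot_sub, dot_smul] at this
        linarith
      rw [e1, e2, f1v]
      ring
  have f1m' : ∀ y ∈ K, dot f1 y ≤ dot f1 (a j) := fun y hy => by rw [f1v]; exact f1m y hy
  have f2m' : ∀ y ∈ K, dot f2 y ≤ dot f2 (a l) := fun y hy => by rw [f2v]; exact f2m y hy
  rcases sign_cases h1 with ⟨a1, a2⟩ | ⟨a1, a2⟩ | ⟨a1, a2⟩
  · -- `D1, D2 < 0`
    rcases sign_cases h2 with ⟨a3, a4⟩ | ⟨a3, a4⟩ | ⟨a3, a4⟩
    · have e : (-D1) • (x i - o) + (-D3) • (a j - o) = (-D2) • (x k - o) + (-D4) • (a l - o) := by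
        linear_combination (norm := module) (-1 : ℝ) • rel
      obtain ⟨u, v⟩ := common_of_cross ho xk al xi aj f10 f40 f1m f4m f1v f4v
        (neg_pos.2 a1) (neg_pos.2 a3) (neg_pos.2 a2) (neg_pos.2 a4) e
      exact ⟨f1, f10, f1m, u, f1v, v⟩
    · exfalso
      have e : (-D1) • (x i - o) = (-D2) • (x k - o) := by
        rw [a3, a4, zero_smul, zero_smul] at rel
        linear_combination (norm := module) (-1 : ℝ) • rel
      exact h.x_ne hik (eq_of_ray ho xk xi f10 f40 f1m f4m (neg_pos.2 a1) (neg_pos.2 a2) e)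
    · have e : (-D1) • (x i - o) + D4 • (a l - o) = (-D2) • (x k - o) + D3 • (a j - o) := by
        linear_combination (norm := module) (-1 : ℝ) • rel
      obtain ⟨u, v⟩ := common_of_cross ho xk aj xi al f20 f30 f2m f3m f2v f3v
        (neg_pos.2 a1) a4 (neg_pos.2 a2) a3 e
      exact ⟨f2, f20, f2m, u, v, f2v⟩
  · -- `D1 = D2 = 0`
    rcases sign_cases h2 with ⟨a3, a4⟩ | ⟨a3, a4⟩ | ⟨a3, a4⟩
    · exfalso
      have e : (-D3) • (a j - o) = (-D4) • (a l - o) := by
        rw [a1, a2, zero_smul, zero_smul] at rel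
        linear_combination (norm := module) (-1 : ℝ) • rel
      exact h.a_ne hjl (eq_of_ray ho al aj f10 f20 f1m' f2m' (neg_pos.2 a3) (neg_pos.2 a4) e)
    · exact coll a1 a2 a3 a4
    · exfalso
      have e : D3 • (a j - o) = D4 • (a l - o) := by
        rw [a1, a2, zero_smul, zero_smul] at rel
        linear_combination (norm := module) (1 : ℝ) • rel
      exact h.a_ne hjl (eq_of_ray ho al aj f10 f20 f1m' f2m' a3 a4 e)
  · -- `D1, D2 > 0`
    rcases sign_cases h2 with ⟨a3, a4⟩ | ⟨a3, a4⟩ | ⟨a3, a4⟩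
    · have e : D1 • (x i - o) + (-D4) • (a l - o) = D2 • (x k - o) + (-D3) • (a j - o) := by
        linear_combination (norm := module) (1 : ℝ) • rel
      obtain ⟨u, v⟩ := common_of_cross ho xk aj xi al f20 f30 f2m f3m f2v f3v
        a1 (neg_pos.2 a4) a2 (neg_pos.2 a3) e
      exact ⟨f2, f20, f2m, u, v, f2v⟩
    · exfalso
      have e : D1 • (x i - o) = D2 • (x k - o) := by
        rw [a3, a4, zero_smul, zero_smul] at rel
        linear_combination (norm := module) (1 : ℝ) • rel
      exact h.x_ne hik (eq_of_ray ho xk xi f10 f40 f1m f4m a1 a2 e)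
    · have e : D1 • (x i - o) + D3 • (a j - o) = D2 • (x k - o) + D4 • (a l - o) := by
        linear_combination (norm := module) (1 : ℝ) • rel
      obtain ⟨u, v⟩ := common_of_cross ho xk al xi aj f10 f40 f1m f4m f1v f4v a1 a3 a2 a4 e
      exact ⟨f1, f10, f1m, u, f1v, v⟩

end crown

end Pool.Agent.V7H41.Crown
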