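import Mathlib

/-!
# Crowns on the boundary of a convex body in three-space

Points `x i`, `a i` of a convex body `K` such that `x i` and `a j` lie on a common supporting plane
exactly when `i ≠ j`. The number of indices is bounded by an absolute constant.
-/

set_option autoImplicit false

namespace Pool.Agent.V7H41.Crown

/-- Euclidean three-space. -/
abbrev E := EuclideanSpace ℝ (Fin 3)

/-- the scalar product in coordinates -/
def dot (f y : E) : ℝ := f 0 * y 0 + f 1 * y 1 + f 2 * y 2

/-- the determinant of three vectors -/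
def det3 (u v w : E) : ℝ :=
  u 0 * (v 1 * w 2 - v 2 * w 1) - u 1 * (v 0 * w 2 - v 2 * w 0) + u 2 * (v 0 * w 1 - v 1 * w 0)

/-- the cross product -/
def cr (u v : E) : E :=
  WithLp.toLp 2 ![u 1 * v 2 - u 2 * v 1, u 2 * v 0 - u 0 * v 2, u 0 * v 1 - u 1 * v 0]

@[simp] lemma cr_0 (u v : E) : cr u v 0 = u 1 * v 2 - u 2 * v 1 := rfl
@[simp] lemma cr_1 (u v : E) : cr u v 1 = u 2 * v 0 - u 0 * v 2 := rfl
@[simp] lemma cr_2 (u v : E) : cr u v 2 = u 0 * v 1 - u 1 * v 0 := rfl

lemma ext3 {u v : E} (h0 : u 0 = v 0) (h1 : u 1 = v 1) (h2 : u 2 = v 2) : u = v := by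
  ext i
  fin_cases i
  · exact h0
  · exact h1
  · exact h2

lemma ne_zero_iff (u : E) : u ≠ 0 ↔ (u 0 ≠ 0 ∨ u 1 ≠ 0 ∨ u 2 ≠ 0) := by
  constructor
  · intro h
    by_contra hc
    push Not at hc
    exact h (ext3 hc.1 hc.2.1 hc.2.2)
  · rintro h rfl
    simp at h

lemma dot_add (f u v : E) : dot f (u + v) = dot f u + dot f v := by
  simp only [dot, PiLp.add_apply]; ring

lemma dot_sub (f u v : E) : dot f (u - v) = dot f u - dot f v := by
  simp only [dot, PiLp.sub_apply]; ring

lemma dot_smul (f u : E) (c : ℝ) : dot f (c • u) = c * dot f u := by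
  simp only [dot, PiLp.smul_apply, smul_eq_mul]; ring

lemma dot_zero (f : E) : dot f 0 = 0 := by
  simp [dot]

lemma dot_self_pos {f : E} (hf : f ≠ 0) : 0 < dot f f := by
  unfold dot
  rcases (ne_zero_iff f).1 hf with h | h | h
  · have := mul_self_pos.2 h
    nlinarith [mul_self_nonneg (f 1), mul_self_nonneg (f 2)]
  · have := mul_self_pos.2 h
    nlinarith [mul_self_nonneg (f 0), mul_self_nonneg (f 2)]
  · have := mul_self_pos.2 h
    nlinarith [mul_self_nonneg (f 0), mul_self_nonneg (f 1)]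

lemma continuous_dot (f : E) : Continuous (dot f) := by
  unfold dot
  fun_prop

/-- the linear relation between four vectors -/
lemma relation (a b c d : E) :
    det3 b c d • a - det3 a c d • b + det3 a b d • c - det3 a b c • d = 0 := by
  apply ext3 <;>
  · simp only [det3, PiLp.add_apply, PiLp.sub_apply, PiLp.smul_apply, smul_eq_mul, PiLp.zero_apply]
    ring

lemma det3_eq (p q r o : E) : det3 (p - o) (q - o) (r - o) = dot (cr (q - p) (r - p)) p -
    dot (cr (q - p) (r - p)) o := by
  simp only [det3, dot, cr_0, cr_1, cr_2, PiLp.sub_apply]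
  ring

/-- If `cr u v = 0` and `u ≠ 0` then `v` is a multiple of `u`. -/
lemma exists_of_cr_zero {u v : E} (h : cr u v = 0) (hu : u ≠ 0) : ∃ t : ℝ, v = t • u := by
  have h0 : u 1 * v 2 - u 2 * v 1 = 0 := by rw [← cr_0, h]; rfl
  have h1 : u 2 * v 0 - u 0 * v 2 = 0 := by rw [← cr_1, h]; rfl
  have h2 : u 0 * v 1 - u 1 * v 0 = 0 := by rw [← cr_2, h]; rfl
  rcases (ne_zero_iff u).1 hu with k | k | k
  · refine ⟨v 0 / u 0, ext3 ?_ ?_ ?_⟩ <;> simp only [PiLp.smul_apply, smul_eq_mul] <;> field_simp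
    · linarith
    · linarith
  · refine ⟨v 1 / u 1, ext3 ?_ ?_ ?_⟩ <;> simp only [PiLp.smul_apply, smul_eq_mul] <;> field_simp
    · linarith
    · linarith
  · refine ⟨v 2 / u 2, ext3 ?_ ?_ ?_⟩ <;> simp only [PiLp.smul_apply, smul_eq_mul] <;> field_simp
    · linarith
    · linarith

lemma cr_smul_self (u : E) (t : ℝ) : cr u (t • u) = 0 := by
  apply ext3 <;> simp <;> ring

/-- Two planes through the same three non-collinear points coincide. -/
lemma plane_eq {f g u v z : E} (hf : f ≠ 0) (h : cr u v ≠ 0) (fu : dot f u = 0)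
    (fv : dot f v = 0) (gu : dot g u = 0) (gv : dot g v = 0) (hz : dot f z = 0) : dot g z = 0 := by
  have key : ∀ k : E, dot k u = 0 → dot k v = 0 → cr (cr u v) k = 0 := by
    intro k hu hv
    have e : cr (cr u v) k = dot k u • v - dot k v • u := by
      apply ext3 <;>
      · simp only [cr_0, cr_1, cr_2, dot, PiLp.sub_apply, PiLp.smul_apply, smul_eq_mul]
        ring
    rw [e, hu, hv]
    simp
  obtain ⟨s, hs⟩ := exists_of_cr_zero (key f fu fv) h
  obtain ⟨t, ht⟩ := exists_of_cr_zero (key g gu gv) h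
  have hs0 : s ≠ 0 := by
    rintro rfl
    rw [zero_smul] at hs
    exact hf hs
  have comm : ∀ p q : E, dot p q = dot q p := by
    intro p q
    unfold dot
    ring
  rw [comm, hs, dot_smul] at hz
  rw [comm, ht, dot_smul]
  rcases mul_eq_zero.1 hz with h' | h'
  · exact absurd h' hs0
  · rw [h', mul_zero]

/-- An inner point is strictly below every supporting plane. -/
lemma int_lt {K : Set E} {o f : E} {c : ℝ} (ho : o ∈ interior K) (hf : f ≠ 0)
    (h : ∀ y ∈ K, dot f y ≤ c) : dot f o < c := by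
  have hc : Continuous fun t : ℝ => o + t • f := by fun_prop
  have h0 : (fun t : ℝ => o + t • f) 0 ∈ interior K := by simpa using ho
  have h1 : (fun t : ℝ => o + t • f) ⁻¹' (interior K) ∈ nhds (0 : ℝ) :=
    (isOpen_interior.preimage hc).mem_nhds h0
  obtain ⟨ε, hε, hb⟩ := Metric.mem_nhds_iff.1 h1
  have h2 : (ε / 2) ∈ Metric.ball (0 : ℝ) ε := by
    rw [Metric.mem_ball, Real.dist_eq, sub_zero, abs_of_pos (by positivity)]
    linarith
  have h3 := h _ (interior_subset (hb h2))
  simp only [dot_add, dot_smul] at h3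
  have h4 := mul_pos (half_pos hε) (dot_self_pos hf)
  linarith

/-- A point of an open set outside finitely many planes. -/
lemma generic {κ : Type*} (s : Finset κ) (n : κ → E) (c : κ → ℝ) (hn : ∀ i ∈ s, n i ≠ 0) :
    ∀ U : Set E, IsOpen U → U.Nonempty → ∃ o ∈ U, ∀ i ∈ s, dot (n i) o ≠ c i := by
  classical
  induction s using Finset.induction_on with
  | empty =>
    intro U _ hU
    obtain ⟨o, ho⟩ := hU
    exact ⟨o, ho, by simp⟩
  | insert i s his ih =>
    intro U hU hne
    have hni := hn i (Finset.mem_insert_self _ _)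
    have hopen : IsOpen (U ∩ {o | dot (n i) o ≠ c i}) :=
      hU.inter (isOpen_ne_fun (continuous_dot _) continuous_const)
    have hne' : (U ∩ {o | dot (n i) o ≠ c i}).Nonempty := by
      by_contra hcon
      rw [Set.not_nonempty_iff_eq_empty] at hcon
      have hall : ∀ y ∈ U, dot (n i) y ≤ c i := by
        intro y hy
        by_contra hlt
        have : y ∈ U ∩ {o | dot (n i) o ≠ c i} := ⟨hy, fun h => hlt h.le⟩
        rw [hcon] at this
        exact this
      obtain ⟨o, ho⟩ := hne
      have h1 := int_lt (K := U) (by rwa [hU.interior_eq]) hni hall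
      have : o ∈ U ∩ {o | dot (n i) o ≠ c i} := ⟨ho, h1.ne⟩
      rw [hcon] at this
      exact this
    obtain ⟨o, ho, h⟩ := ih (fun j hj => hn j (Finset.mem_insert_of_mem hj)) _ hopen hne'
    refine ⟨o, ho.1, ?_⟩
    intro j hj
    rcases Finset.mem_insert.1 hj with rfl | hj
    · exact ho.2
    · exact h j hj

/-- the crown configuration -/
structure IsCrown {ι : Type*} (K : Set E) (x a : ι → E) : Prop where
  hx : ∀ i, x i ∈ K
  ha : ∀ i, a i ∈ K
  ne : ∀ i j, i ≠ j → ∃ f : E, f ≠ 0 ∧ (∀ y ∈ K, dot f y ≤ dot f (x i)) ∧ dot f (a j) = dot f (x i)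
  eq : ∀ i, ∀ f : E, f ≠ 0 → (∀ y ∈ K, dot f y ≤ dot f (x i)) → dot f (a i) ≠ dot f (x i)

/-- `x i`, `x k`, `a j`, `a l` are on a common supporting plane. -/
def Common {ι : Type*} (K : Set E) (x a : ι → E) (i k j l : ι) : Prop :=
  ∃ f : E, f ≠ 0 ∧ (∀ y ∈ K, dot f y ≤ dot f (x i)) ∧ dot f (x k) = dot f (x i) ∧
    dot f (a j) = dot f (x i) ∧ dot f (a l) = dot f (x i)

section crown

variable {ι : Type*} {K : Set E} {x a : ι → E}

lemma IsCrown.a_ne (h : IsCrown K x a) {i j : ι} (hij : i ≠ j) : a i ≠ a j := by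
  intro he
  obtain ⟨f, hf, hm, hv⟩ := h.ne i j hij
  exact h.eq i f hf hm (by rw [he, hv])

lemma IsCrown.x_ne (h : IsCrown K x a) {i j : ι} (hij : i ≠ j) : x i ≠ x j := by
  intro he
  obtain ⟨f, hf, hm, hv⟩ := h.ne i j hij
  refine h.eq j f hf (by rwa [← he]) ?_
  rw [hv, he]

/-- The middle one of three collinear points. -/
lemma IsCrown.no_between (h : IsCrown K x a) {i j k : ι} (hij : i ≠ j) (t : ℝ)
    (ht0 : 0 < t) (ht1 : t < 1) : a j ≠ (1 - t) • a i + t • a k := by
  intro he
  obtain ⟨f, hf, hm, hv⟩ := h.ne i j hij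
  apply h.eq i f hf hm
  have h1 := hm _ (h.ha i)
  have h2 := hm _ (h.ha k)
  rw [he, dot_add, dot_smul, dot_smul] at hv
  nlinarith

/-- No three of the points `a i` are collinear. -/
lemma IsCrown.noncollinear (h : IsCrown K x a) {i j k : ι} (hij : i ≠ j) (hik : i ≠ k)
    (hjk : j ≠ k) : cr (a j - a i) (a k - a i) ≠ 0 := by
  intro hc
  obtain ⟨t, ht⟩ := exists_of_cr_zero hc (sub_ne_zero.2 (h.a_ne hij).symm)
  have hk : a k = a i + t • (a j - a i) := by rw [← ht]; abel
  rcases lt_trichotomy t 0 with h0 | h0 | h0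
  · -- `a i` is between `a j` and `a k`
    have hp : 0 < 1 - t := by linarith
    apply h.no_between (i := j) (j := i) (k := k) hij.symm (1 / (1 - t)) (by positivity)
      (by rw [div_lt_one hp]; linarith)
    rw [hk]
    apply ext3 <;>
    · simp only [PiLp.add_apply, PiLp.sub_apply, PiLp.smul_apply, smul_eq_mul]
      field_simp
      ring
  · rw [h0, zero_smul, add_zero] at hk
    exact h.a_ne hik hk.symm
  · rcases lt_trichotomy t 1 with h1 | h1 | h1
    · apply h.no_between (i := i) (j := k) (k := j) hik t h0 h1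
      rw [hk]
      apply ext3 <;>
      · simp only [PiLp.add_apply, PiLp.sub_apply, PiLp.smul_apply, smul_eq_mul]
        ring
    · rw [h1, one_smul] at hk
      apply h.a_ne hjk
      rw [hk]
      abel
    · apply h.no_between (i := i) (j := j) (k := k) hij (1 / t) (by positivity)
        (by rw [div_lt_one h0]; linarith)
      rw [hk]
      apply ext3 <;>
      · simp only [PiLp.add_apply, PiLp.sub_apply, PiLp.smul_apply, smul_eq_mul]
        field_simp
        ring

end crown

end Pool.Agent.V7H41.Crown
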