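import Pool.Agent.V7H41.Plane

/-!
# The truncated octahedron and the octahedron
-/

set_option autoImplicit false

open MeasureTheory Measure Set Module
open scoped RealInnerProductSpace Pointwise

namespace Pool.Agent.V7H41.Area

open Pool.Agent.V7H41.Crown (cr dot ext3 exists_of_cr_zero)

/-- a sign -/
def sg (b : Bool) : ℝ := if b then 1 else -1

lemma sg_sq (b : Bool) : sg b * sg b = 1 := by
  cases b <;> simp [sg]

lemma sg_ne (b : Bool) : sg b ≠ 0 := by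
  cases b <;> simp [sg]

lemma abs_sg (b : Bool) : |sg b| = 1 := by
  cases b <;> simp [sg]

lemma sg_mul_le (b : Bool) (x : ℝ) : sg b * x ≤ |x| := by
  have := le_abs_self (sg b * x)
  rwa [abs_mul, abs_sg, one_mul] at this

lemma exists_sg (x : ℝ) : ∃ b : Bool, sg b * x = |x| := by
  rcases le_total 0 x with h | h
  · exact ⟨true, by simp [sg, abs_of_nonneg h]⟩
  · exact ⟨false, by simp [sg, abs_of_nonpos h]⟩

lemma abs_of_sg {b : Bool} {x : ℝ} (h : 0 ≤ sg b * x) : |x| = sg b * x := by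
  rw [← abs_of_nonneg h, abs_mul, abs_sg, one_mul]

/-- the truncated octahedron -/
def C1 : Set E3 := {x | |x 0| + |x 1| + |x 2| ≤ 13 ∧ |x 0| ≤ 8 ∧ |x 1| ≤ 8 ∧ |x 2| ≤ 8}

/-- the octahedron -/
def C2 : Set E3 := {x | |x 0| + |x 1| + |x 2| ≤ 12}

/-- triples of signs -/
abbrev Sg := Bool × Bool × Bool

/-- an open face of the octahedron -/
def TT (s : Sg) : Set E3 := {x | 0 < sg s.1 * x 0 ∧ 0 < sg s.2.1 * x 1 ∧ 0 < sg s.2.2 * x 2 ∧
  sg s.1 * x 0 + sg s.2.1 * x 1 + sg s.2.2 * x 2 = 12}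

/-- a hexagonal face of the truncated octahedron, without the edges at the squares -/
def HH (s : Sg) : Set E3 := {x | (0 ≤ sg s.1 * x 0 ∧ sg s.1 * x 0 < 8) ∧
  (0 ≤ sg s.2.1 * x 1 ∧ sg s.2.1 * x 1 < 8) ∧ (0 ≤ sg s.2.2 * x 2 ∧ sg s.2.2 * x 2 < 8) ∧
  sg s.1 * x 0 + sg s.2.1 * x 1 + sg s.2.2 * x 2 = 13}

/-- the image of a basis vector under the linear part -/
noncomputable def vv (A : E3 ≃ᵃ[ℝ] E3) (i : Fin 3) : E3 := A.linear (EuclideanSpace.single i 1)

lemma A_apply (A : E3 ≃ᵃ[ℝ] E3) (x : E3) :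
    A x = A 0 + (x 0 • vv A 0 + x 1 • vv A 1 + x 2 • vv A 2) := by
  have h1 : A x = A.linear x + A 0 := by
    have := A.map_vadd 0 x
    simpa using this
  have h2 : x = x 0 • EuclideanSpace.single (0 : Fin 3) (1 : ℝ) +
      x 1 • EuclideanSpace.single (1 : Fin 3) (1 : ℝ) +
      x 2 • EuclideanSpace.single (2 : Fin 3) (1 : ℝ) := by
    apply ext3 <;> simp
  have h3 : A.linear x = x 0 • vv A 0 + x 1 • vv A 1 + x 2 • vv A 2 := by
    conv_lhs => rw [h2]
    rw [map_add, map_add, map_smul, map_smul, map_smul]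
    rfl
  rw [h1, h3]
  abel

/-- the vector `(α, β, γ)` applied to the three cross products -/
noncomputable def ww (A : E3 ≃ᵃ[ℝ] E3) (s : Sg) : E3 :=
  sg s.1 • cr (vv A 1) (vv A 2) + sg s.2.1 • cr (vv A 2) (vv A 0) + sg s.2.2 • cr (vv A 0) (vv A 1)

/-- the parametrisation of the face -/
noncomputable def fm (A : E3 ≃ᵃ[ℝ] E3) (s : Sg) (r : ℝ) : E2 → E3 :=
  pm (A 0 + (r * sg s.1) • vv A 0) (sg s.2.1 • vv A 1 - sg s.1 • vv A 0)
    (sg s.2.2 • vv A 2 - sg s.1 • vv A 0)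

lemma norm_fm (A : E3 ≃ᵃ[ℝ] E3) (s : Sg) :
    ‖cr (sg s.2.1 • vv A 1 - sg s.1 • vv A 0) (sg s.2.2 • vv A 2 - sg s.1 • vv A 0)‖ = ‖ww A s‖ := by
  have h : cr (sg s.2.1 • vv A 1 - sg s.1 • vv A 0) (sg s.2.2 • vv A 2 - sg s.1 • vv A 0) =
      (sg s.1 * sg s.2.1 * sg s.2.2) • ww A s := by
    have a := sg_sq s.1
    have b := sg_sq s.2.1
    have c := sg_sq s.2.2
    unfold ww
    generalize sg s.1 = α at *
    generalize sg s.2.1 = β at *
    generalize sg s.2.2 = γ at *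
    apply ext3 <;> simp only [Crown.cr_0, Crown.cr_1, Crown.cr_2, PiLp.add_apply, PiLp.sub_apply,
      PiLp.smul_apply, smul_eq_mul]
    · linear_combination (-(β * γ * ((vv A 1) 1 * (vv A 2) 2 - (vv A 1) 2 * (vv A 2) 1))) * a -
        (α * γ * ((vv A 2) 1 * (vv A 0) 2 - (vv A 2) 2 * (vv A 0) 1)) * b -
        (α * β * ((vv A 0) 1 * (vv A 1) 2 - (vv A 0) 2 * (vv A 1) 1)) * c
    · linear_combination (-(β * γ * ((vv A 1) 2 * (vv A 2) 0 - (vv A 1) 0 * (vv A 2) 2))) * a -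
        (α * γ * ((vv A 2) 2 * (vv A 0) 0 - (vv A 2) 0 * (vv A 0) 2)) * b -
        (α * β * ((vv A 0) 2 * (vv A 1) 0 - (vv A 0) 0 * (vv A 1) 2)) * c
    · linear_combination (-(β * γ * ((vv A 1) 0 * (vv A 2) 1 - (vv A 1) 1 * (vv A 2) 0))) * a -
        (α * γ * ((vv A 2) 0 * (vv A 0) 1 - (vv A 2) 1 * (vv A 0) 0)) * b -
        (α * β * ((vv A 0) 0 * (vv A 1) 1 - (vv A 0) 1 * (vv A 1) 0)) * c
  rw [h, norm_smul, Real.norm_eq_abs, abs_mul, abs_mul, abs_sg, abs_sg, abs_sg]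
  ring

/-- a point of the face in terms of its parameters -/
lemma fm_eq (A : E3 ≃ᵃ[ℝ] E3) (s : Sg) (r : ℝ) (x : E3)
    (hx : sg s.1 * x 0 + sg s.2.1 * x 1 + sg s.2.2 * x 2 = r) :
    fm A s r (ev (sg s.2.1 * x 1) (sg s.2.2 * x 2)) = A x := by
  rw [A_apply]
  unfold fm pm
  have a := sg_sq s.1
  have b := sg_sq s.2.1
  have c := sg_sq s.2.2
  simp only [ev0, ev1]
  have e0 : x 0 = sg s.1 * (r - sg s.2.1 * x 1 - sg s.2.2 * x 2) := by
    rw [← hx]
    linear_combination (-(x 0)) * a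
  have e1 : (sg s.2.1 * x 1) • (sg s.2.1 • vv A 1) = x 1 • vv A 1 := by
    rw [smul_smul]
    congr 1
    linear_combination (x 1) * b
  have e2 : (sg s.2.2 * x 2) • (sg s.2.2 • vv A 2) = x 2 • vv A 2 := by
    rw [smul_smul]
    congr 1
    linear_combination (x 2) * c
  rw [smul_sub, smul_sub, e1, e2]
  conv_rhs => rw [e0]
  module

/-- the point with given parameters -/
noncomputable def pt (s : Sg) (r : ℝ) (a : E2) : E3 :=
  WithLp.toLp 2 ![sg s.1 * (r - a 0 - a 1), sg s.2.1 * a 0, sg s.2.2 * a 1]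

@[simp] lemma pt0 (s : Sg) (r : ℝ) (a : E2) : pt s r a 0 = sg s.1 * (r - a 0 - a 1) := rfl
@[simp] lemma pt1 (s : Sg) (r : ℝ) (a : E2) : pt s r a 1 = sg s.2.1 * a 0 := rfl
@[simp] lemma pt2 (s : Sg) (r : ℝ) (a : E2) : pt s r a 2 = sg s.2.2 * a 1 := rfl

lemma A_pt (A : E3 ≃ᵃ[ℝ] E3) (s : Sg) (r : ℝ) (a : E2) : A (pt s r a) = fm A s r a := by
  have a' := sg_sq s.1
  have b := sg_sq s.2.1
  have c := sg_sq s.2.2
  rw [← fm_eq A s r (pt s r a)]
  · congr 1
    ext i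
    fin_cases i
    · show sg s.2.1 * (sg s.2.1 * a 0) = a 0
      linear_combination (a 0) * b
    · show sg s.2.2 * (sg s.2.2 * a 1) = a 1
      linear_combination (a 1) * c
  · simp only [pt0, pt1, pt2]
    linear_combination (r - a 0 - a 1) * a' + (a 0) * b + (a 1) * c

lemma image_TT (A : E3 ≃ᵃ[ℝ] E3) (s : Sg) : A '' TT s = fm A s 12 '' Do 12 := by
  have a' := sg_sq s.1
  have b := sg_sq s.2.1
  have c := sg_sq s.2.2
  ext y
  constructor
  · rintro ⟨x, ⟨h0, h1, h2, h3⟩, rfl⟩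
    refine ⟨ev (sg s.2.1 * x 1) (sg s.2.2 * x 2), ⟨h1, h2, ?_⟩, fm_eq A s 12 x h3⟩
    simp only [ev0, ev1]
    linarith
  · rintro ⟨a, ⟨h0, h1, h2⟩, rfl⟩
    refine ⟨pt s 12 a, ⟨?_, ?_, ?_, ?_⟩, A_pt A s 12 a⟩ <;> simp only [pt0, pt1, pt2]
    · rw [← mul_assoc, a', one_mul]; linarith
    · rw [← mul_assoc, b, one_mul]; exact h0
    · rw [← mul_assoc, c, one_mul]; exact h1
    · rw [← mul_assoc, ← mul_assoc, ← mul_assoc, a', b, c]; ring

lemma image_HH (A : E3 ≃ᵃ[ℝ] E3) (s : Sg) : A '' HH s ⊆ fm A s 13 '' Hx := by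
  rintro _ ⟨x, ⟨⟨h0, k0⟩, ⟨h1, k1⟩, ⟨h2, k2⟩, h3⟩, rfl⟩
  refine ⟨ev (sg s.2.1 * x 1) (sg s.2.2 * x 2), ⟨h1, k1, h2, k2, ?_, ?_⟩, fm_eq A s 13 x h3⟩
  · simp only [ev0, ev1]; linarith
  · simp only [ev0, ev1]; linarith

lemma area_TT (A : E3 ≃ᵃ[ℝ] E3) (s : Sg) :
    μHE[2] (A '' TT s) = ENNReal.ofReal (144 * ‖ww A s‖) * tt := by
  rw [image_TT, fm, area, norm_fm, vol_Do (by norm_num), ENNReal.ofReal_mul (by norm_num)]
  norm_num
  ring

lemma area_HH (A : E3 ≃ᵃ[ℝ] E3) (s : Sg) :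
    μHE[2] (A '' HH s) ≤ ENNReal.ofReal (94 * ‖ww A s‖) * tt := by
  refine (measure_mono (image_HH A s)).trans ?_
  rw [fm, area, norm_fm, ENNReal.ofReal_mul (by norm_num)]
  have : ENNReal.ofReal 94 = 94 := by
    rw [show (94 : ℝ) = ((94 : ℕ) : ℝ) by norm_num, ENNReal.ofReal_natCast]
    norm_num
  rw [this]
  calc ENNReal.ofReal ‖ww A s‖ * volume Hx ≤ ENNReal.ofReal ‖ww A s‖ * (94 * tt) := by
        gcongr
        exact vol_Hx
    _ = 94 * ENNReal.ofReal ‖ww A s‖ * tt := by ring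

/-- an affine bijection is a homeomorphism -/
noncomputable def hom (A : E3 ≃ᵃ[ℝ] E3) : E3 ≃ₜ E3 :=
  { A.toEquiv with
    continuous_toFun := A.toAffineMap.continuous_of_finiteDimensional
    continuous_invFun := A.symm.toAffineMap.continuous_of_finiteDimensional }

lemma frontier_image (A : E3 ≃ᵃ[ℝ] E3) (C : Set E3) : frontier (A '' C) = A '' frontier C :=
  ((hom A).image_frontier C).symm

lemma ca (i : Fin 3) : Continuous fun x : E3 => |x i| := by fun_prop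

lemma isClosed_C1 : IsClosed C1 := by
  have h0 : Continuous fun x : E3 => |x 0| + |x 1| + |x 2| := by fun_prop
  exact (isClosed_le h0 continuous_const).inter ((isClosed_le (ca 0) continuous_const).inter
    ((isClosed_le (ca 1) continuous_const).inter (isClosed_le (ca 2) continuous_const)))

lemma isClosed_C2 : IsClosed C2 := by
  have h0 : Continuous fun x : E3 => |x 0| + |x 1| + |x 2| := by fun_prop
  exact isClosed_le h0 continuous_const

lemma frontier_C1 : frontier C1 ⊆ (⋃ s : Sg, HH s) ∪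
    {x | (|x 0| = 8 ∧ |x 1| + |x 2| ≤ 5) ∨ (|x 1| = 8 ∧ |x 0| + |x 2| ≤ 5) ∨
      (|x 2| = 8 ∧ |x 0| + |x 1| ≤ 5)} := by
  intro x hx
  have hxC : x ∈ C1 := isClosed_C1.frontier_subset hx
  have hopen : IsOpen {x : E3 | |x 0| + |x 1| + |x 2| < 13 ∧ |x 0| < 8 ∧ |x 1| < 8 ∧ |x 2| < 8} := by
    have h0 : Continuous fun x : E3 => |x 0| + |x 1| + |x 2| := by fun_prop
    exact (isOpen_lt h0 continuous_const).inter ((isOpen_lt (ca 0) continuous_const).inter
      ((isOpen_lt (ca 1) continuous_const).inter (isOpen_lt (ca 2) continuous_const)))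
  have hnot : ¬ (|x 0| + |x 1| + |x 2| < 13 ∧ |x 0| < 8 ∧ |x 1| < 8 ∧ |x 2| < 8) := by
    intro h
    apply hx.2
    exact mem_interior.2 ⟨_, fun y hy => ⟨hy.1.le, hy.2.1.le, hy.2.2.1.le, hy.2.2.2.le⟩, hopen, h⟩
  obtain ⟨h, h0, h1, h2⟩ := hxC
  rcases h0.eq_or_lt with e0 | l0
  · right; left; exact ⟨e0, by linarith⟩
  rcases h1.eq_or_lt with e1 | l1
  · right; right; left; exact ⟨e1, by linarith⟩
  rcases h2.eq_or_lt with e2 | l2
  · right; right; right; exact ⟨e2, by linarith⟩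
  left
  have hs : |x 0| + |x 1| + |x 2| = 13 := by
    by_contra hne
    exact hnot ⟨lt_of_le_of_ne h hne, l0, l1, l2⟩
  obtain ⟨a, ha⟩ := exists_sg (x 0)
  obtain ⟨b, hb⟩ := exists_sg (x 1)
  obtain ⟨c, hc⟩ := exists_sg (x 2)
  rw [mem_iUnion]
  refine ⟨(a, b, c), ⟨?_, ?_⟩, ⟨?_, ?_⟩, ⟨?_, ?_⟩, ?_⟩ <;> simp only [ha, hb, hc]
  · exact abs_nonneg _
  · exact l0
  · exact abs_nonneg _
  · exact l1
  · exact abs_nonneg _
  · exact l2
  · exact hs

lemma TT_subset (s : Sg) : TT s ⊆ frontier C2 := by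
  rintro x ⟨h0, h1, h2, h3⟩
  have e0 := abs_of_sg h0.le
  have e1 := abs_of_sg h1.le
  have e2 := abs_of_sg h2.le
  have hs : |x 0| + |x 1| + |x 2| = 12 := by rw [e0, e1, e2, h3]
  refine ⟨subset_closure (show x ∈ C2 from hs.le), ?_⟩
  intro hint
  have hc : Continuous fun t : ℝ => x + t • x := by fun_prop
  have k0 : (fun t : ℝ => x + t • x) 0 ∈ interior C2 := by simpa using hint
  have k1 : (fun t : ℝ => x + t • x) ⁻¹' (interior C2) ∈ nhds (0 : ℝ) :=
    (isOpen_interior.preimage hc).mem_nhds k0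
  obtain ⟨ε, hε, hb⟩ := Metric.mem_nhds_iff.1 k1
  have k2 : (ε / 2) ∈ Metric.ball (0 : ℝ) ε := by
    rw [Metric.mem_ball, Real.dist_eq, sub_zero, abs_of_pos (by positivity)]
    linarith
  have k3 : x + (ε / 2) • x ∈ C2 := interior_subset (hb k2)
  simp only [C2, mem_ofPred_eq, PiLp.add_apply, PiLp.smul_apply, smul_eq_mul] at k3
  have f : ∀ y : ℝ, |y + ε / 2 * y| = (1 + ε / 2) * |y| := by
    intro y
    rw [show y + ε / 2 * y = (1 + ε / 2) * y by ring, abs_mul, abs_of_pos (by positivity)]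
  rw [f, f, f] at k3
  nlinarith

lemma measurable_TT (s : Sg) : MeasurableSet (TT s) := by
  have m0 : Measurable fun x : E3 => x 0 := by fun_prop
  have m1 : Measurable fun x : E3 => x 1 := by fun_prop
  have m2 : Measurable fun x : E3 => x 2 := by fun_prop
  refine (measurableSet_lt measurable_const (m0.const_mul _)).inter
    ((measurableSet_lt measurable_const (m1.const_mul _)).inter
    ((measurableSet_lt measurable_const (m2.const_mul _)).inter
    (measurableSet_eq_fun (((m0.const_mul _).add (m1.const_mul _)).add (m2.const_mul _))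
      measurable_const)))

lemma disjoint_TT {s t : Sg} (h : s ≠ t) : Disjoint (TT s) (TT t) := by
  rw [Set.disjoint_left]
  rintro x ⟨h0, h1, h2, _⟩ ⟨k0, k1, k2, _⟩
  apply h
  have key : ∀ {a b : Bool} {y : ℝ}, 0 < sg a * y → 0 < sg b * y → a = b := by
    intro a b y ha hb
    cases a <;> cases b <;> simp [sg] at ha hb ⊢ <;> linarith
  obtain ⟨s0, s1, s2⟩ := s
  obtain ⟨t0, t1, t2⟩ := t
  simp only at h0 h1 h2 k0 k1 k2
  rw [key h0 k0, key h1 k1, key h2 k2]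

/-- lower bound for the surface area of the image of the octahedron -/
lemma area_C2 (A : E3 ≃ᵃ[ℝ] E3) :
    ENNReal.ofReal (144 * ∑ s : Sg, ‖ww A s‖) * tt ≤ μHE[2] (frontier (A '' C2)) := by
  rw [frontier_image]
  have h1 : (⋃ s ∈ (Finset.univ : Finset Sg), A '' TT s) ⊆ A '' frontier C2 := by
    intro y hy
    simp only [Finset.mem_univ, iUnion_true, mem_iUnion] at hy
    obtain ⟨s, x, hx, rfl⟩ := hy
    exact ⟨x, TT_subset s hx, rfl⟩
  refine le_trans ?_ (measure_mono h1)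
  rw [measure_biUnion_finset]
  · rw [Finset.sum_congr rfl fun s _ => area_TT A s, ← Finset.sum_mul,
      ← ENNReal.ofReal_sum_of_nonneg (fun s _ => by positivity), Finset.mul_sum]
  · intro s _ t _ hst
    exact (Set.disjoint_image_iff A.injective).2 (disjoint_TT hst)
  · intro s _
    exact ((hom A).measurableEmbedding).measurableSet_image.2
      (measurable_TT s)

/-- the squares -/
lemma area_sq (A : E3 ≃ᵃ[ℝ] E3) (i j k : Fin 3)
    (hA : ∀ x : E3, A x = A 0 + (x i • vv A i + x j • vv A j + x k • vv A k)) :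
    μHE[2] (A '' {x | |x i| = 8 ∧ |x j| + |x k| ≤ 5}) ≤
      ENNReal.ofReal (200 * ‖cr (vv A j) (vv A k)‖) * tt := by
  have hsub : A '' {x | |x i| = 8 ∧ |x j| + |x k| ≤ 5} ⊆
      {x : E3 | ∃ b c : ℝ, |b| + |c| ≤ 5 ∧
        x = (A 0 + (8 : ℝ) • vv A i) + (b • vv A j + c • vv A k)} ∪
      {x : E3 | ∃ b c : ℝ, |b| + |c| ≤ 5 ∧
        x = (A 0 + (-8 : ℝ) • vv A i) + (b • vv A j + c • vv A k)} := by
    rintro _ ⟨x, ⟨h0, h1⟩, rfl⟩
    rcases (abs_eq (by norm_num : (0 : ℝ) ≤ 8)).1 h0 with e | e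
    · left
      refine ⟨x j, x k, h1, ?_⟩
      rw [hA, e]
      abel
    · right
      refine ⟨x j, x k, h1, ?_⟩
      rw [hA, e]
      abel
  refine (measure_mono hsub).trans ((measure_union_le _ _).trans
    ((add_le_add (square _ _ _) (square _ _ _)).trans ?_))
  rw [← add_mul, ← ENNReal.ofReal_add (by positivity) (by positivity)]
  apply le_of_eq
  congr 2
  ring

/-- upper bound for the surface area of the image of the truncated octahedron -/
lemma area_C1 (A : E3 ≃ᵃ[ℝ] E3) :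
    μHE[2] (frontier (A '' C1)) ≤ ENNReal.ofReal (94 * ∑ s : Sg, ‖ww A s‖ +
      200 * (‖cr (vv A 1) (vv A 2)‖ + ‖cr (vv A 2) (vv A 0)‖ + ‖cr (vv A 0) (vv A 1)‖)) * tt := by
  rw [frontier_image]
  have h1 : A '' frontier C1 ⊆ (⋃ s : Sg, A '' HH s) ∪
      (A '' {x | |x 0| = 8 ∧ |x 1| + |x 2| ≤ 5} ∪ (A '' {x | |x 1| = 8 ∧ |x 2| + |x 0| ≤ 5} ∪
      A '' {x | |x 2| = 8 ∧ |x 0| + |x 1| ≤ 5})) := by
    rintro _ ⟨x, hx, rfl⟩
    rcases frontier_C1 hx with h | h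
    · left
      obtain ⟨s, hs⟩ := mem_iUnion.1 h
      exact mem_iUnion.2 ⟨s, x, hs, rfl⟩
    · right
      rcases h with h | h | h
      · exact Or.inl ⟨x, h, rfl⟩
      · exact Or.inr (Or.inl ⟨x, ⟨h.1, by linarith [h.2]⟩, rfl⟩)
      · exact Or.inr (Or.inr ⟨x, h, rfl⟩)
  have hA1 := area_sq A 0 1 2 (A_apply A)
  have hA2 := area_sq A 1 2 0 (fun x => by rw [A_apply]; abel)
  have hA3 := area_sq A 2 0 1 (fun x => by rw [A_apply]; abel)
  have hU : μHE[2] (⋃ s : Sg, A '' HH s) ≤ ENNReal.ofReal (94 * ∑ s : Sg, ‖ww A s‖) * tt := by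
    refine (measure_iUnion_fintype_le _ _).trans ?_
    refine (Finset.sum_le_sum fun s _ => area_HH A s).trans ?_
    rw [← Finset.sum_mul, ← ENNReal.ofReal_sum_of_nonneg (fun s _ => by positivity), Finset.mul_sum]
  refine (measure_mono h1).trans ((measure_union_le _ _).trans ((add_le_add hU
    ((measure_union_le _ _).trans (add_le_add hA1 ((measure_union_le _ _).trans
      (add_le_add hA2 hA3))))).trans ?_))
  rw [← add_mul, ← add_mul, ← add_mul, ← ENNReal.ofReal_add (by positivity) (by positivity),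
    ← ENNReal.ofReal_add (by positivity) (by positivity),
    ← ENNReal.ofReal_add (Finset.sum_nonneg' (fun _ => norm_nonneg _) |> fun h => by positivity)
      (by positivity)]
  apply le_of_eq
  congr 2
  ring

/-- **Domination in affine surface area.** -/
theorem dominates (A : E3 ≃ᵃ[ℝ] E3) : μHE[2] (frontier (A '' C1)) ≤ μHE[2] (frontier (A '' C2)) := by
  refine (area_C1 A).trans (le_trans ?_ (area_C2 A))
  gcongr
  set a := cr (vv A 1) (vv A 2) with ha
  set b := cr (vv A 2) (vv A 0) with hb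
  set c := cr (vv A 0) (vv A 1) with hc
  have hsum : ∑ s : Sg, ‖ww A s‖ = 2 * (‖a + b + c‖ + ‖a + b - c‖ + ‖a - b + c‖ + ‖-a + b + c‖) := by
    have e : ∀ s : Sg, ww A s = sg s.1 • a + sg s.2.1 • b + sg s.2.2 • c := fun _ => rfl
    simp only [e, Fintype.sum_prod_type, Fintype.sum_bool]
    simp only [sg, if_true, Bool.false_eq_true, if_false, one_smul, neg_smul]
    have n1 : ‖-a + -b + -c‖ = ‖a + b + c‖ := by
      rw [← norm_neg]; congr 1; abel
    have n2 : ‖-a + -b + c‖ = ‖a + b - c‖ := by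
      rw [← norm_neg]; congr 1; abel
    have n3 : ‖-a + b + -c‖ = ‖a - b + c‖ := by
      rw [← norm_neg]; congr 1; abel
    have n4 : ‖a + -b + -c‖ = ‖-a + b + c‖ := by
      rw [← norm_neg]; congr 1; abel
    have n5 : ‖a + b + -c‖ = ‖a + b - c‖ := by congr 1
    have n6 : ‖a + -b + c‖ = ‖a - b + c‖ := by congr 1
    rw [n1, n2, n3, n4, n5, n6]
    ring
  have hH := hlawka (a + b - c) (a - b + c) (-a + b + c)
  have m1 : ‖a + b - c + (a - b + c)‖ = 2 * ‖a‖ := by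
    rw [show a + b - c + (a - b + c) = (2 : ℝ) • a by module, norm_smul]
    norm_num
  have m2 : ‖a - b + c + (-a + b + c)‖ = 2 * ‖c‖ := by
    rw [show a - b + c + (-a + b + c) = (2 : ℝ) • c by module, norm_smul]
    norm_num
  have m3 : ‖a + b - c + (-a + b + c)‖ = 2 * ‖b‖ := by
    rw [show a + b - c + (-a + b + c) = (2 : ℝ) • b by module, norm_smul]
    norm_num
  have m4 : a + b - c + (a - b + c) + (-a + b + c) = a + b + c := by module
  rw [m1, m2, m3, m4] at hH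
  rw [hsum]
  linarith

end Pool.Agent.V7H41.Area
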