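import Pool.Agent.V7H41.Octa

/-!
# Volumes of the octahedron and of the truncated octahedron
-/

set_option autoImplicit false

open MeasureTheory Measure Set Module
open scoped RealInnerProductSpace Pointwise

namespace Pool.Agent.V7H41.Area

/-- the octahedron of size `r` -/
def VV (r : ℝ) : Set E3 := {x | |x 0| + |x 1| + |x 2| ≤ r}

lemma isClosed_VV (r : ℝ) : IsClosed (VV r) := by
  have h0 : Continuous fun x : E3 => |x 0| + |x 1| + |x 2| := by fun_prop
  exact isClosed_le h0 continuous_const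

lemma isBounded_VV (r : ℝ) : Bornology.IsBounded (VV r) := by
  refine (Metric.isBounded_closedBall (x := (0 : E3)) (r := |r|)).subset ?_
  intro x hx
  rw [mem_closedBall_zero_iff]
  have h : |x 0| + |x 1| + |x 2| ≤ |r| := le_trans hx (le_abs_self r)
  have h3 := norm_sq3 x
  have a0 := abs_nonneg (x 0)
  have a1 := abs_nonneg (x 1)
  have a2 := abs_nonneg (x 2)
  have h4 : ‖x‖ ^ 2 ≤ |r| ^ 2 := by
    rw [h3, ← sq_abs (x 0), ← sq_abs (x 1), ← sq_abs (x 2)]
    nlinarith [mul_nonneg a0 a1, mul_nonneg a0 a2, mul_nonneg a1 a2]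
  exact (pow_le_pow_iff_left₀ (norm_nonneg _) (abs_nonneg _) two_ne_zero).1 h4

lemma vol_VV {r : ℝ} (hr : 0 < r) : volume (VV r) = ENNReal.ofReal (r ^ 3) * volume (VV 1) := by
  have h1 : VV r = r • VV 1 := by
    ext a
    rw [mem_smul_set_iff_inv_smul_mem₀ hr.ne']
    simp only [VV, mem_ofPred_eq, PiLp.smul_apply, smul_eq_mul, abs_mul, abs_of_pos (inv_pos.2 hr)]
    rw [← mul_add, ← mul_add, inv_mul_le_iff₀ hr, mul_one]
  rw [h1, addHaar_smul]
  simp only [finrank_euclideanSpace, Fintype.card_fin]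
  rw [abs_of_pos (by positivity)]

lemma vol_VV_ne_top (r : ℝ) : volume (VV r) ≠ ⊤ := (isBounded_VV r).measure_lt_top.ne

lemma ball_subset_VV {r : ℝ} : Metric.ball (0 : E3) (r / 3) ⊆ VV r := by
  intro x hx
  rw [mem_ball_zero_iff] at hx
  have h : ∀ i, |x i| ≤ ‖x‖ := fun i => by
    have := PiLp.norm_apply_le x i
    rwa [Real.norm_eq_abs] at this
  have h0 := h 0
  have h1 := h 1
  have h2 := h 2
  show |x 0| + |x 1| + |x 2| ≤ r
  linarith

lemma vol_VV_pos : 0 < volume (VV 1) :=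
  lt_of_lt_of_le (Metric.measure_ball_pos volume (0 : E3) (by norm_num : (0 : ℝ) < 1 / 3))
    (measure_mono ball_subset_VV)

lemma vol_translate3 (v : E3) (S : Set E3) : volume ((fun a => v + a) '' S) = volume S := by
  rw [image_add_left]
  exact measure_preimage_add _ _ _

/-- the two corners in a coordinate direction -/
lemma corner (i j k : Fin 3) (hij : i ≠ j) (hik : i ≠ k)
    (hV : ∀ r : ℝ, ∀ x : E3, x ∈ VV r ↔ |x i| + |x j| + |x k| ≤ r) :
    volume {x | x ∈ VV 13 ∧ 8 < |x i|} ≤ volume (VV 5) := by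
  set e : E3 := EuclideanSpace.single i (8 : ℝ) with he
  have ei : e i = 8 := by simp [he]
  have ej : e j = 0 := by simp [he, hij.symm]
  have ek : e k = 0 := by simp [he, hik.symm]
  set P : Set E3 := {x | x ∈ VV 5 ∧ 0 < x i} with hP
  set Q : Set E3 := {x | x ∈ VV 5 ∧ x i < 0} with hQ
  have hsub : {x | x ∈ VV 13 ∧ 8 < |x i|} ⊆ (fun a => e + a) '' P ∪ (fun a => -e + a) '' Q := by
    rintro x ⟨h1, h2⟩
    rw [hV] at h1
    rcases lt_abs.1 h2 with h | h
    · left
      refine ⟨x - e, ⟨?_, ?_⟩, by simp⟩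
      · rw [hV]
        simp only [PiLp.sub_apply, ei, ej, ek, sub_zero]
        rw [abs_of_pos (by linarith : 0 < x i - 8)]
        rw [abs_of_pos (by linarith : 0 < x i)] at h1
        linarith
      · simp only [PiLp.sub_apply, ei]
        linarith
    · right
      refine ⟨x + e, ⟨?_, ?_⟩, by simp⟩
      · rw [hV]
        simp only [PiLp.add_apply, ei, ej, ek, add_zero]
        rw [abs_of_neg (by linarith : x i + 8 < 0)]
        rw [abs_of_neg (by linarith : x i < 0)] at h1
        linarith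
      · simp only [PiLp.add_apply, ei]
        linarith
  have mQ : MeasurableSet Q := (isClosed_VV 5).measurableSet.inter
    (measurableSet_lt (show Measurable fun x : E3 => x i by fun_prop) measurable_const)
  calc volume {x | x ∈ VV 13 ∧ 8 < |x i|} ≤ volume P + volume Q := by
        refine (measure_mono hsub).trans ((measure_union_le _ _).trans ?_)
        rw [vol_translate3, vol_translate3]
    _ = volume (P ∪ Q) := by
        rw [measure_union _ mQ]
        rw [Set.disjoint_left]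
        rintro x ⟨_, h⟩ ⟨_, h'⟩
        linarith
    _ ≤ volume (VV 5) := measure_mono (by rintro x (h | h) <;> exact h.1)

lemma C2_eq : C2 = VV 12 := rfl

/-- The truncated octahedron has larger volume. -/
theorem vol_lt : volume C2 < volume C1 := by
  have h0 := corner 0 1 2 (by decide) (by decide) (fun r x => Iff.rfl)
  have h1 := corner 1 0 2 (by decide) (by decide)
    (fun r x => by show |x 0| + |x 1| + |x 2| ≤ r ↔ _; rw [add_comm |x 0| |x 1|])
  have h2 := corner 2 0 1 (by decide) (by decide)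
    (fun r x => by
      show |x 0| + |x 1| + |x 2| ≤ r ↔ _
      rw [show |x 2| + |x 0| + |x 1| = |x 0| + |x 1| + |x 2| by ring])
  have hsub : VV 13 ⊆ ((C1 ∪ {x | x ∈ VV 13 ∧ 8 < |x 0|}) ∪ {x | x ∈ VV 13 ∧ 8 < |x 1|}) ∪
      {x | x ∈ VV 13 ∧ 8 < |x 2|} := by
    intro x hx
    by_cases g0 : 8 < |x 0|
    · exact Or.inl (Or.inl (Or.inr ⟨hx, g0⟩))
    by_cases g1 : 8 < |x 1|
    · exact Or.inl (Or.inr ⟨hx, g1⟩)
    by_cases g2 : 8 < |x 2|
    · exact Or.inr ⟨hx, g2⟩
    exact Or.inl (Or.inl (Or.inl ⟨hx, not_lt.1 g0, not_lt.1 g1, not_lt.1 g2⟩))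
  have h3 : volume (VV 13) ≤ volume C1 + volume (VV 5) + volume (VV 5) + volume (VV 5) := by
    refine (measure_mono hsub).trans ((measure_union_le _ _).trans ?_)
    refine add_le_add ((measure_union_le _ _).trans ?_) h2
    refine add_le_add ((measure_union_le _ _).trans ?_) h1
    exact add_le_add le_rfl h0
  set V := volume (VV 1) with hV
  have e5 : volume (VV 5) = 125 * V := by
    rw [vol_VV (by norm_num), show ((5 : ℝ) ^ 3) = ((125 : ℕ) : ℝ) by norm_num, ENNReal.ofReal_natCast, hV]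
    norm_num
  have e13 : volume (VV 13) = 2197 * V := by
    rw [vol_VV (by norm_num), show ((13 : ℝ) ^ 3) = ((2197 : ℕ) : ℝ) by norm_num,
      ENNReal.ofReal_natCast, hV]
    norm_num
  have e12 : volume C2 = 1728 * V := by
    rw [C2_eq, vol_VV (by norm_num), show ((12 : ℝ) ^ 3) = ((1728 : ℕ) : ℝ) by norm_num,
      ENNReal.ofReal_natCast, hV]
    norm_num
  have hVt : V ≠ ⊤ := vol_VV_ne_top 1
  have hVp : V ≠ 0 := vol_VV_pos.ne'
  rw [e5, e13] at h3
  have hfin : (375 : ENNReal) * V ≠ ⊤ := ENNReal.mul_ne_top (by norm_num) hVt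
  have h4 : 1822 * V ≤ volume C1 := by
    have : 1822 * V + 375 * V ≤ volume C1 + 375 * V := by
      calc 1822 * V + 375 * V = 2197 * V := by ring
        _ ≤ volume C1 + 125 * V + 125 * V + 125 * V := h3
        _ = volume C1 + 375 * V := by ring
    exact (ENNReal.add_le_add_iff_right hfin).1 this
  rw [e12]
  refine lt_of_lt_of_le ?_ h4
  exact ENNReal.mul_lt_mul_left hVp hVt (by norm_num)

lemma abs_convex (a b s t : ℝ) (hs : 0 ≤ s) (ht : 0 ≤ t) : |s * a + t * b| ≤ s * |a| + t * |b| := by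
  refine (abs_add_le _ _).trans ?_
  rw [abs_mul, abs_mul, abs_of_nonneg hs, abs_of_nonneg ht]

lemma convex_C2 : Convex ℝ C2 := by
  intro x hx y hy s t hs ht hst
  have k0 := abs_convex (x 0) (y 0) s t hs ht
  have k1 := abs_convex (x 1) (y 1) s t hs ht
  have k2 := abs_convex (x 2) (y 2) s t hs ht
  have hx' : |x 0| + |x 1| + |x 2| ≤ 12 := hx
  have hy' : |y 0| + |y 1| + |y 2| ≤ 12 := hy
  show |(s • x + t • y) 0| + |(s • x + t • y) 1| + |(s • x + t • y) 2| ≤ 12
  simp only [PiLp.add_apply, PiLp.smul_apply, smul_eq_mul]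
  nlinarith [mul_le_mul_of_nonneg_left hx' hs, mul_le_mul_of_nonneg_left hy' ht]

lemma convex_C1 : Convex ℝ C1 := by
  intro x hx y hy s t hs ht hst
  have k0 := abs_convex (x 0) (y 0) s t hs ht
  have k1 := abs_convex (x 1) (y 1) s t hs ht
  have k2 := abs_convex (x 2) (y 2) s t hs ht
  obtain ⟨a, a0, a1, a2⟩ := hx
  obtain ⟨b, b0, b1, b2⟩ := hy
  refine ⟨?_, ?_, ?_, ?_⟩ <;> simp only [PiLp.add_apply, PiLp.smul_apply, smul_eq_mul]
  · nlinarith [mul_le_mul_of_nonneg_left a hs, mul_le_mul_of_nonneg_left b ht]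
  · nlinarith [mul_le_mul_of_nonneg_left a0 hs, mul_le_mul_of_nonneg_left b0 ht]
  · nlinarith [mul_le_mul_of_nonneg_left a1 hs, mul_le_mul_of_nonneg_left b1 ht]
  · nlinarith [mul_le_mul_of_nonneg_left a2 hs, mul_le_mul_of_nonneg_left b2 ht]

lemma C1_subset : C1 ⊆ VV 13 := fun _ hx => hx.1

lemma compact_C1 : IsCompact C1 :=
  Metric.isCompact_of_isClosed_isBounded isClosed_C1 ((isBounded_VV 13).subset C1_subset)

lemma compact_C2 : IsCompact C2 :=
  Metric.isCompact_of_isClosed_isBounded isClosed_C2 (isBounded_VV 12)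

lemma interior_C2 : (interior C2).Nonempty :=
  ⟨0, mem_interior.2 ⟨Metric.ball 0 (12 / 3), ball_subset_VV, Metric.isOpen_ball, by simp⟩⟩

lemma interior_C1 : (interior C1).Nonempty := by
  refine ⟨0, mem_interior.2 ⟨Metric.ball 0 (8 / 3), ?_, Metric.isOpen_ball, by simp⟩⟩
  intro x hx
  have h : |x 0| + |x 1| + |x 2| ≤ 8 := ball_subset_VV hx
  have a0 := abs_nonneg (x 0)
  have a1 := abs_nonneg (x 1)
  have a2 := abs_nonneg (x 2)
  exact ⟨by linarith, by linarith, by linarith, by linarith⟩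

lemma neg_C1 (x : E3) : -x ∈ C1 ↔ x ∈ C1 := by
  simp [C1, mem_ofPred_eq]

lemma neg_C2 (x : E3) : -x ∈ C2 ↔ x ∈ C2 := by
  simp [C2, mem_ofPred_eq]

end Pool.Agent.V7H41.Area
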