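import Pool.Agent.V7H41.Area

/-!
# Areas of triangles and of a hexagon in the plane
-/

set_option autoImplicit false

open MeasureTheory Measure Set Module
open scoped RealInnerProductSpace Pointwise

namespace Pool.Agent.V7H41.Area

open Pool.Agent.V7H41.Crown (cr dot ext3 exists_of_cr_zero)

/-- open and closed triangles -/
def Do (r : ℝ) : Set E2 := {a | 0 < a 0 ∧ 0 < a 1 ∧ a 0 + a 1 < r}
def Dc (r : ℝ) : Set E2 := {a | 0 ≤ a 0 ∧ 0 ≤ a 1 ∧ a 0 + a 1 ≤ r}

/-- the hexagon: the triangle of size `13` with its three corners of size `5` cut off -/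
def Hx : Set E2 := {a | 0 ≤ a 0 ∧ a 0 < 8 ∧ 0 ≤ a 1 ∧ a 1 < 8 ∧ a 0 + a 1 ≤ 13 ∧ 5 < a 0 + a 1}

/-- the area of the unit triangle -/
noncomputable def tt : ENNReal := volume (Do 1)

lemma c0 : Continuous fun a : E2 => a 0 := by fun_prop
lemma c1 : Continuous fun a : E2 => a 1 := by fun_prop

lemma isClosed_Dc (r : ℝ) : IsClosed (Dc r) :=
  (isClosed_le continuous_const c0).inter ((isClosed_le continuous_const c1).inter
    (isClosed_le (c0.add c1) continuous_const))

lemma convex_Dc (r : ℝ) : Convex ℝ (Dc r) := by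
  rintro a ⟨h0, h1, h2⟩ b ⟨k0, k1, k2⟩ s t hs ht hst
  simp only [Dc, mem_ofPred_eq, PiLp.add_apply, PiLp.smul_apply, smul_eq_mul]
  refine ⟨by positivity, by positivity, ?_⟩
  have : s * (a 0 + a 1) + t * (b 0 + b 1) ≤ s * r + t * r := by gcongr
  have e : s * r + t * r = r := by rw [← add_mul, hst, one_mul]
  nlinarith

/-- moving a point in a coordinate direction -/
noncomputable def ev (x y : ℝ) : E2 := WithLp.toLp 2 ![x, y]

@[simp] lemma ev0 (x y : ℝ) : ev x y 0 = x := rfl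
@[simp] lemma ev1 (x y : ℝ) : ev x y 1 = y := rfl

lemma interior_Dc (r : ℝ) : interior (Dc r) ⊆ Do r := by
  intro a ha
  have key : ∀ v : E2, ∃ ε : ℝ, 0 < ε ∧ a + ε • v ∈ Dc r := by
    intro v
    have hc : Continuous fun t : ℝ => a + t • v := by fun_prop
    have h0 : (fun t : ℝ => a + t • v) 0 ∈ interior (Dc r) := by simpa using ha
    have h1 : (fun t : ℝ => a + t • v) ⁻¹' (interior (Dc r)) ∈ nhds (0 : ℝ) :=
      (isOpen_interior.preimage hc).mem_nhds h0
    obtain ⟨ε, hε, hb⟩ := Metric.mem_nhds_iff.1 h1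
    have h2 : (ε / 2) ∈ Metric.ball (0 : ℝ) ε := by
      rw [Metric.mem_ball, Real.dist_eq, sub_zero, abs_of_pos (by positivity)]
      linarith
    exact ⟨ε / 2, by positivity, interior_subset (hb h2)⟩
  obtain ⟨ε, hε, h⟩ := key (ev (-1) 0)
  obtain ⟨δ, hδ, k⟩ := key (ev 0 (-1))
  obtain ⟨η, hη, l⟩ := key (ev 1 0)
  simp only [Dc, mem_ofPred_eq, PiLp.add_apply, PiLp.smul_apply, smul_eq_mul, ev0, ev1] at h k l
  exact ⟨by linarith [h.1], by linarith [k.2.1], by linarith [l.2.2]⟩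

lemma vol_Dc_eq (r : ℝ) : volume (Dc r) = volume (Do r) := by
  apply le_antisymm
  · have h1 : Dc r ⊆ Do r ∪ frontier (Dc r) := by
      intro a ha
      by_cases h : a ∈ interior (Dc r)
      · exact Or.inl (interior_Dc r h)
      · exact Or.inr ⟨subset_closure ha, h⟩
    calc volume (Dc r) ≤ volume (Do r ∪ frontier (Dc r)) := measure_mono h1
      _ ≤ volume (Do r) + volume (frontier (Dc r)) := measure_union_le _ _
      _ = volume (Do r) := by rw [(convex_Dc r).addHaar_frontier volume, add_zero]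
  · apply measure_mono
    rintro a ⟨h0, h1, h2⟩
    exact ⟨h0.le, h1.le, h2.le⟩

lemma vol_Do {r : ℝ} (hr : 0 < r) : volume (Do r) = ENNReal.ofReal (r ^ 2) * tt := by
  have h1 : Do r = r • Do 1 := by
    ext a
    rw [mem_smul_set_iff_inv_smul_mem₀ hr.ne']
    simp only [Do, mem_ofPred_eq, PiLp.smul_apply, smul_eq_mul]
    constructor
    · rintro ⟨h0, h1, h2⟩
      refine ⟨by positivity, by positivity, ?_⟩
      rw [← mul_add, inv_mul_lt_iff₀ hr, mul_one]
      exact h2
    · rintro ⟨h0, h1, h2⟩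
      rw [← mul_add, inv_mul_lt_iff₀ hr, mul_one] at h2
      refine ⟨?_, ?_, h2⟩
      · have := mul_pos hr h0
        rwa [← mul_assoc, mul_inv_cancel₀ hr.ne', one_mul] at this
      · have := mul_pos hr h1
        rwa [← mul_assoc, mul_inv_cancel₀ hr.ne', one_mul] at this
  rw [h1, addHaar_smul]
  simp only [finrank_euclideanSpace, Fintype.card_fin]
  rw [abs_of_pos (by positivity)]
  rfl

lemma tt_ne_top : tt ≠ ⊤ := by
  have hb : Bornology.IsBounded (Do 1) := by
    refine (Metric.isBounded_closedBall (x := (0 : E2)) (r := 2)).subset ?_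
    rintro a ⟨h0, h1, h2⟩
    rw [mem_closedBall_zero_iff]
    have h3 := norm_sq2 a
    have h4 : ‖a‖ ^ 2 ≤ 2 ^ 2 := by
      rw [h3]
      nlinarith
    exact (pow_le_pow_iff_left₀ (norm_nonneg _) (by norm_num) two_ne_zero).1 h4
  exact hb.measure_lt_top.ne

lemma vol_translate (v : E2) (S : Set E2) : volume ((fun a => v + a) '' S) = volume S := by
  rw [image_add_left]
  exact measure_preimage_add _ _ _

lemma vol_Hx : volume Hx ≤ 94 * tt := by
  have e25 : volume (Dc 5) = 25 * tt := by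
    rw [vol_Dc_eq, vol_Do (by norm_num)]
    congr 1
    rw [show ((5 : ℝ) ^ 2) = ((25 : ℕ) : ℝ) by norm_num, ENNReal.ofReal_natCast]
    norm_num
  have e169 : volume (Dc 13) = 169 * tt := by
    rw [vol_Dc_eq, vol_Do (by norm_num)]
    congr 1
    rw [show ((13 : ℝ) ^ 2) = ((169 : ℕ) : ℝ) by norm_num, ENNReal.ofReal_natCast]
    norm_num
  set A : Set E2 := (fun a => ev 8 0 + a) '' Dc 5 with hA
  set B : Set E2 := (fun a => ev 0 8 + a) '' Dc 5 with hB
  have hAm : ∀ a ∈ A, 8 ≤ a 0 ∧ 0 ≤ a 1 ∧ a 0 + a 1 ≤ 13 := by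
    rintro _ ⟨a, ⟨h0, h1, h2⟩, rfl⟩
    simp only [PiLp.add_apply, ev0, ev1]
    exact ⟨by linarith, by linarith, by linarith⟩
  have hBm : ∀ a ∈ B, 0 ≤ a 0 ∧ 8 ≤ a 1 ∧ a 0 + a 1 ≤ 13 := by
    rintro _ ⟨a, ⟨h0, h1, h2⟩, rfl⟩
    simp only [PiLp.add_apply, ev0, ev1]
    exact ⟨by linarith, by linarith, by linarith⟩
  have mC : MeasurableSet (Dc 5) := (isClosed_Dc 5).measurableSet
  have mA : MeasurableSet A := ((Homeomorph.addLeft (ev 8 0)).isClosedMap _ (isClosed_Dc 5)).measurableSet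
  have mB : MeasurableSet B := ((Homeomorph.addLeft (ev 0 8)).isClosedMap _ (isClosed_Dc 5)).measurableSet
  have h1 : volume (((Hx ∪ Dc 5) ∪ A) ∪ B) = volume Hx + volume (Dc 5) + volume A + volume B := by
    rw [measure_union _ mB, measure_union _ mA, measure_union _ mC]
    · rw [Set.disjoint_left]
      rintro a ⟨_, _, _, _, _, h⟩ ⟨_, _, h'⟩
      linarith
    · rw [Set.disjoint_left]
      rintro a (⟨_, h, _⟩ | ⟨_, h, h'⟩) ha
      · have := (hAm a ha).1; linarith
      · have := (hAm a ha).1; linarith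
    · rw [Set.disjoint_left]
      rintro a ((⟨_, _, _, h, _⟩ | ⟨h, h', h''⟩) | hA') hb
      · have := (hBm a hb).2.1; linarith
      · have := (hBm a hb).2.1; linarith
      · have k1 := hAm a hA'
        have k2 := hBm a hb
        linarith [k1.1, k2.2.1, k1.2.2]
  have h2 : ((Hx ∪ Dc 5) ∪ A) ∪ B ⊆ Dc 13 := by
    rintro a (((⟨h0, _, h1, _, h2, _⟩ | ⟨h0, h1, h2⟩) | h) | h)
    · exact ⟨h0, h1, h2⟩
    · exact ⟨h0, h1, by linarith⟩
    · have k := hAm a h
      exact ⟨by linarith [k.1], k.2.1, k.2.2⟩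
    · have k := hBm a h
      exact ⟨k.1, by linarith [k.2.1], k.2.2⟩
  have h3 := measure_mono (μ := volume) h2
  rw [h1, hA, hB, vol_translate, vol_translate, e25, e169] at h3
  have hfin : (75 : ENNReal) * tt ≠ ⊤ := ENNReal.mul_ne_top (by norm_num) tt_ne_top
  have h4 : volume Hx + 75 * tt ≤ 94 * tt + 75 * tt := by
    calc volume Hx + 75 * tt = volume Hx + 25 * tt + 25 * tt + 25 * tt := by ring
      _ ≤ 169 * tt := h3
      _ = 94 * tt + 75 * tt := by ring
  exact (ENNReal.add_le_add_iff_right hfin).1 h4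

/-- A filled cross-shaped square, as a union of four triangles. -/
lemma square (x0 p q : E3) :
    μHE[2] {x : E3 | ∃ b c : ℝ, |b| + |c| ≤ 5 ∧ x = x0 + (b • p + c • q)} ≤
      ENNReal.ofReal (100 * ‖cr p q‖) * tt := by
  have e25 : volume (Dc 5) = 25 * tt := by
    rw [vol_Dc_eq, vol_Do (by norm_num)]
    congr 1
    rw [show ((5 : ℝ) ^ 2) = ((25 : ℕ) : ℝ) by norm_num, ENNReal.ofReal_natCast]
    norm_num
  have hsub : {x : E3 | ∃ b c : ℝ, |b| + |c| ≤ 5 ∧ x = x0 + (b • p + c • q)} ⊆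
      ((pm x0 p q '' Dc 5 ∪ pm x0 (-p) q '' Dc 5) ∪ pm x0 p (-q) '' Dc 5) ∪
        pm x0 (-p) (-q) '' Dc 5 := by
    rintro x ⟨b, c, h, rfl⟩
    rcases le_total 0 b with hb | hb <;> rcases le_total 0 c with hc | hc
    · rw [abs_of_nonneg hb, abs_of_nonneg hc] at h
      exact Or.inl (Or.inl (Or.inl ⟨ev b c, ⟨hb, hc, h⟩, rfl⟩))
    · rw [abs_of_nonneg hb, abs_of_nonpos hc] at h
      refine Or.inl (Or.inr ⟨ev b (-c), ⟨hb, by simpa using hc, h⟩, ?_⟩)
      simp only [pm, ev0, ev1]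
      module
    · rw [abs_of_nonpos hb, abs_of_nonneg hc] at h
      refine Or.inl (Or.inl (Or.inr ⟨ev (-b) c, ⟨by simpa using hb, hc, h⟩, ?_⟩))
      simp only [pm, ev0, ev1]
      module
    · rw [abs_of_nonpos hb, abs_of_nonpos hc] at h
      refine Or.inr ⟨ev (-b) (-c), ⟨by simpa using hb, by simpa using hc, h⟩, ?_⟩
      simp only [pm, ev0, ev1]
      module
  have n1 : ‖cr (-p) q‖ = ‖cr p q‖ := by
    have : cr (-p) q = -cr p q := by apply ext3 <;> simp <;> ring
    rw [this, norm_neg]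
  have n2 : ‖cr p (-q)‖ = ‖cr p q‖ := by
    have : cr p (-q) = -cr p q := by apply ext3 <;> simp <;> ring
    rw [this, norm_neg]
  have n3 : ‖cr (-p) (-q)‖ = ‖cr p q‖ := by
    have : cr (-p) (-q) = cr p q := by apply ext3 <;> simp
    rw [this]
  refine (measure_mono hsub).trans ?_
  refine (measure_union_le _ _).trans ?_
  refine (add_le_add ((measure_union_le _ _).trans
    (add_le_add (measure_union_le _ _) le_rfl)) le_rfl).trans ?_
  rw [area, area, area, area, n1, n2, n3, e25]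
  apply le_of_eq
  rw [ENNReal.ofReal_mul (by norm_num)]
  have : ENNReal.ofReal 100 = 100 := by
    rw [show (100 : ℝ) = ((100 : ℕ) : ℝ) by norm_num, ENNReal.ofReal_natCast]
    norm_num
  rw [this]
  ring

end Pool.Agent.V7H41.Area
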